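import Pool.Agent.Y715.T.RecC

/-!
# Project PK (helper16). Cubic reciprocity for all primary primes, including conjugate ones
-/

set_option autoImplicit false
set_option linter.unusedSectionVars false

namespace T2h16.PK.Esa

open Pool.Agent.Y692.QS
open Pool.Agent.Y715.T.Rec (la FF mk mk_eq_zero nn cs fld ftp card_FF card_FF' mw hom_mk not_unit
  w_pow_ex w_pow_cube w_inj w_add exists_p char_FF nr_of_assoc char_ne)
open Pool.Agent.Y715.T
open Pool.Agent.Y715.T.RecG (Pq)
open Pool.Agent.Y715.T.RecC (unit_form exists_prim star_prime star_dvd nr_nn)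
open scoped Classical

lemma pq_star {π : Ei} (h : Pq π) : Pq (star π) := by
  refine ⟨star_prime h.prime, ?_⟩
  have h1 := star_dvd h.three
  rw [star_sub, star_one] at h1
  have h2 : star (3 : Ei) = 3 := by decide
  rwa [h2] at h1

/-- the conjugate of the symbol -/
lemma cs_star {π : Ei} (h : Pq π) {x : Ei} (hx : ¬ π ∣ x) :
    cs (star π) (star x) = -cs π x := by
  have h' := pq_star h
  apply RecG.cs_of h'.prime h'.norm
  have h1 := star_dvd (RecG.cs_spec h.prime h.norm hx)
  have h2 : nn (star π) = nn π := by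
    unfold nn
    rw [nr_star]
  have h3 : ∀ c : ZMod 3, star (w ^ c.val : Ei) = w ^ (-c).val := by
    intro c
    rw [star_pow, star_w]
    revert c
    decide
  rw [star_sub, star_pow, h3] at h1
  rw [h2]
  exact h1

lemma not_dvd_unit {π u : Ei} (h : Prime π) (hu : IsUnit u) : ¬ π ∣ u := fun h1 =>
  h.not_isUnit (isUnit_of_dvd_unit h1 hu)

/-- units have the same symbols for a prime and its conjugate -/
lemma cs_unit_star {π : Ei} (h : Pq π) {u : Ei} (hu : IsUnit u) : cs π u = cs (star π) u := by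
  have h' := pq_star h
  have hsu : IsUnit (star u) := hu.star
  have h1 := cs_star h (not_dvd_unit h.prime hu)
  have h2 : star u * u = 1 := by
    rw [mul_comm, mul_star, isUnit_iff.1 hu]
    norm_num
  have h3 := RecG.cs_mul h'.prime h'.norm (not_dvd_unit h'.prime hsu) (not_dvd_unit h'.prime hu)
  rw [h2, RecG.cs_one h'.prime h'.norm, h1] at h3
  linear_combination h3

lemma unit_eq_one {u : Ei} (hu : IsUnit u) (h3 : (3 : Ei) ∣ u - 1) : u = 1 := by
  obtain ⟨c, hc | hc⟩ := unit_form hu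
  · rw [hc] at h3 ⊢
    have h5 : (((3 : ℤ) : Ei)) ∣ w ^ c.val - 1 := by exact_mod_cast h3
    rw [int_dvd] at h5
    exact (by decide : ∀ c : ZMod 3, ((3 : ℤ) ∣ (w ^ c.val - 1 : Ei).re ∧
      (3 : ℤ) ∣ (w ^ c.val - 1 : Ei).im) → (w : Ei) ^ c.val = 1) c h5
  · exfalso
    rw [hc] at h3
    have h5 : (((3 : ℤ) : Ei)) ∣ -w ^ c.val - 1 := by exact_mod_cast h3
    rw [int_dvd] at h5
    exact (by decide : ∀ c : ZMod 3, ¬ ((3 : ℤ) ∣ (-w ^ c.val - 1 : Ei).re ∧
      (3 : ℤ) ∣ (-w ^ c.val - 1 : Ei).im)) c h5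

lemma eq_of_assoc {x y : Ei} (hx : (3 : Ei) ∣ x - 1) (hy : (3 : Ei) ∣ y - 1)
    (h : Associated x y) : x = y := by
  obtain ⟨u, hu⟩ := h
  have h3 : (3 : Ei) ∣ (u : Ei) - 1 := by
    have e : (u : Ei) - 1 = (y - 1) - (x - 1) * u := by rw [← hu]; ring
    rw [e]
    exact dvd_sub hy (Dvd.dvd.mul_right hx _)
  rw [← hu, unit_eq_one u.isUnit h3, mul_one]

lemma eq_of_dvd {π ρ : Ei} (h : Pq π) (h' : Pq ρ) (hd : ρ ∣ π) : ρ = π :=
  eq_of_assoc h'.three h.three ((h'.prime.dvd_prime_iff_associated h.prime).1 hd)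

/-- the relation for all divisors of the trace -/
lemma rel {π : Ei} (h : Pq π) (α : Ei) (h0 : α ≠ 0)
    (hα : ∀ ρ : Ei, Prime ρ → ρ ∣ α → ¬ ρ ∣ 3 ∧ nr ρ ≠ nr π ∧ ρ ∣ π + star π) :
    cs π α = cs (star π) α := by
  have h' := pq_star h
  induction α using UniqueFactorizationMonoid.induction_on_prime with
  | h₁ => exact absurd rfl h0
  | h₂ u hu => exact cs_unit_star h hu
  | h₃ β ρ hβ hρ ih =>
    have hβ0 : β ≠ 0 := hβ
    have ih' := ih hβ0 (fun r hr hd => hα r hr (Dvd.dvd.mul_left hd _))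
    obtain ⟨h3, hn, ht⟩ := hα ρ hρ (dvd_mul_right _ _)
    obtain ⟨u, hu, hu3⟩ := exists_prim hρ h3
    have hup : Prime (u * ρ) := by
      obtain ⟨v, rfl⟩ := hu
      exact (Associated.prime_iff ⟨v, mul_comm _ _⟩).1 hρ
    have hnr : nr (u * ρ) = nr ρ := by rw [nr_mul, isUnit_iff.1 hu, one_mul]
    have hn' : nr ρ ≠ nr (star π) := by rwa [nr_star]
    have hq : Pq (u * ρ) := ⟨hup, hu3⟩
    have hd : ∀ {τ : Ei}, Prime τ → nr ρ ≠ nr τ → ¬ τ ∣ ρ := fun hτ hne h1 =>
      hne (nr_of_assoc hτ hρ h1).symm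
    have hdβ : ¬ π ∣ β := fun h1 => (hα π h.prime (Dvd.dvd.mul_left h1 _)).2.1 rfl
    have hdβ' : ¬ star π ∣ β := fun h1 =>
      (hα (star π) h'.prime (Dvd.dvd.mul_left h1 _)).2.1 (nr_star π)
    have hdu : ∀ {τ : Ei}, Prime τ → ¬ τ ∣ u := fun hτ => not_dvd_unit hτ hu
    have h5 : cs π (u * ρ) = cs π u + cs π ρ :=
      RecG.cs_mul h.prime h.norm (hdu h.prime) (hd h.prime hn)
    have h6 : cs (star π) (u * ρ) = cs (star π) u + cs (star π) ρ :=
      RecG.cs_mul h'.prime h'.norm (hdu h'.prime) (hd h'.prime hn')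
    have hcu := cs_unit_star h hu
    have h7 : cs (u * ρ) π = cs π (u * ρ) :=
      RecG.cs_comm h hq (by rw [hnr]; exact hn.symm)
    have h8 : cs (u * ρ) (star π) = cs (star π) (u * ρ) :=
      RecG.cs_comm h' hq (by rw [hnr]; exact hn'.symm)
    have hnd : ¬ u * ρ ∣ star π := fun h1 => hn' (by
      rw [← hnr]
      exact nr_of_assoc hup h'.prime h1)
    have h9 : cs (u * ρ) (star π) = cs (u * ρ) π := by
      have hnd1 : ¬ u * ρ ∣ -π := fun h1 => hn (by
        rw [← hnr]
        exact nr_of_assoc hup h.prime ((dvd_neg).1 h1))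
      have hnd2 : ¬ u * ρ ∣ π := fun h1 => hnd1 ((dvd_neg).2 h1)
      rw [← RecG.cs_neg hup hq.norm hnd2]
      refine RecG.cs_congr hup hq.norm hnd ?_
      rw [sub_neg_eq_add, add_comm]
      obtain ⟨v, rfl⟩ := hu
      exact (Units.mul_left_dvd).2 ht
    rw [RecG.cs_mul h.prime h.norm (hd h.prime hn) hdβ,
      RecG.cs_mul h'.prime h'.norm (hd h'.prime hn') hdβ', ih']
    have h10 : cs π ρ = cs (star π) ρ := by
      linear_combination h6 - h5 - hcu + h8 - h7 - h9
    rw [h10]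

/-- reciprocity for conjugate primes -/
theorem conj_zero {π : Ei} (h : Pq π) (hn : ¬ π ∣ star π) : cs π (star π) = 0 := by
  have h' := pq_star h
  have hn' : ¬ star π ∣ π := by
    intro h1
    have h2 := star_dvd h1
    rw [star_star] at h2
    exact hn h2
  set t : Ei := π + star π with ht
  have hts : star t = t := by rw [ht, star_add, star_star, add_comm]
  have hπt : ¬ π ∣ t := fun h1 => hn (by
    have e : star π = t - π := by rw [ht]; ring
    rw [e]
    exact dvd_sub h1 (dvd_refl π))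
  have ht0 : t ≠ 0 := fun h1 => hπt (h1 ▸ dvd_zero _)
  have ht3 : (3 : Ei) ∣ t - 2 := by
    have e : t - 2 = (π - 1) + (star π - 1) := by rw [ht]; ring
    rw [e]
    exact dvd_add h.three h'.three
  have h1 := rel h t ht0 (fun ρ hρ hd => ⟨?_, ?_, hd⟩)
  · have h2 := cs_star h hπt
    rw [hts] at h2
    rw [h2] at h1
    have h3 : cs π t = 0 := by
      revert h1
      generalize cs π t = c
      revert c
      decide
    rw [← h3]
    refine RecG.cs_congr h.prime h.norm hn ?_
    exact ⟨-1, by rw [ht]; ring⟩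
  · intro h3
    have h4 : ρ ∣ 1 := by
      have h5 : ρ ∣ 2 := by
        have e2 : (2 : Ei) = t - (t - 2) := by ring
        rw [e2]
        exact dvd_sub hd (dvd_trans h3 ht3)
      have e3 : (1 : Ei) = 3 - 2 := by norm_num
      rw [e3]
      exact dvd_sub h3 h5
    exact hρ.not_isUnit (isUnit_of_dvd_one h4)
  · intro h3
    have h4 : ρ ∣ π ∨ ρ ∣ star π := by
      apply hρ.dvd_or_dvd
      rw [mul_star, ← h3, ← mul_star]
      exact dvd_mul_right _ _
    rcases h4 with h4 | h4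
    · exact hπt (dvd_trans ((hρ.dvd_prime_iff_associated h.prime).1 h4).symm.dvd hd)
    · have h5 := dvd_trans ((hρ.dvd_prime_iff_associated h'.prime).1 h4).symm.dvd hd
      have h6 := star_dvd h5
      rw [star_star, hts] at h6
      exact hπt h6

/-- cubic reciprocity for all primary primes -/
theorem comm_all {π ρ : Ei} (h : Pq π) (h' : Pq ρ) (hn : ¬ ρ ∣ π) : cs ρ π = cs π ρ := by
  by_cases hne : nr π = nr ρ
  · have h1 : ρ ∣ star π := by
      have h2 : ρ ∣ π * star π := by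
        rw [mul_star, hne, ← mul_star]
        exact dvd_mul_right _ _
      exact (h'.prime.dvd_or_dvd h2).resolve_left hn
    have h3 : ρ = star π := eq_of_dvd (pq_star h) h' h1
    subst h3
    have hn1 : ¬ π ∣ star π := by
      intro h4
      have h5 := star_dvd h4
      rw [star_star] at h5
      exact hn h5
    have h6 := conj_zero h hn1
    have h7 := conj_zero (pq_star h) (by rwa [star_star])
    rw [star_star] at h7
    rw [h6, h7]
  · exact RecG.cs_comm h h' hne

/-- a noncube modulo a prime -/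
theorem exists_cs_ne {π : Ei} (hπ : Prime π) (h9 : ¬ π ∣ 3) : ∃ g : Ei, ¬ π ∣ g ∧ cs π g ≠ 0 := by
  let _ := fld hπ
  let _ := ftp hπ
  have hc : Fintype.card (FF π) = (nr π).natAbs := card_FF' hπ
  have hd := Cub.card_mod (mw π) (RecG.mk_three h9)
  obtain ⟨d, hd⟩ := hd
  have hnn : nn π = d := by
    unfold nn
    rw [← hc, hd]
    omega
  obtain ⟨g, hg⟩ := (inferInstance : IsCyclic (FF π)ˣ).exists_generator
  have ho : orderOf g = 3 * d := by
    rw [orderOf_eq_card_of_forall_mem_zpowers hg, Nat.card_eq_fintype_card,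
      Fintype.card_units, hd]
  have hd0 : 0 < d := by
    have := Cub.third_pos (mw π) (RecG.mk_three h9)
    rw [hd] at this
    omega
  obtain ⟨y, hy⟩ := Ideal.Quotient.mk_surjective ((g : (FF π)ˣ) : FF π)
  have hy0 : ¬ π ∣ y := fun h => g.ne_zero (by rw [← hy]; exact (mk_eq_zero y).2 h)
  refine ⟨y, hy0, fun h => ?_⟩
  have h1 := RecG.cs_spec hπ h9 hy0
  rw [h, ZMod.val_zero, pow_zero, ← RecG.mk_eq, map_pow, map_one] at h1
  have h2 : g ^ d = 1 := by
    apply Units.ext
    rw [Units.val_pow_eq_pow_val, Units.val_one, ← hnn, ← hy]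
    exact h1
  have h3 : 3 * d ∣ d := by
    rw [← ho]
    exact orderOf_dvd_of_pow_eq_one h2
  have := Nat.le_of_dvd hd0 h3
  omega

end T2h16.PK.Esa
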