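import Pool.Agent.H921R2.TatePole.Dedekind
import Pool.Agent.Y692.QS.Ei

/-!
# The places of the field of the Eisenstein integers (for task MASE of project PK), by helper94
-/

set_option autoImplicit false
set_option linter.unusedSectionVars false

open NumberField IsDedekindDomain

namespace T2h16.PK.MASE

open Pool.Agent.Y692.QS (Ei w nr nr_mul nr_nonneg nr_nat mul_star nr_star star_re star_im int_dvd
  int_dvd_int w_sq w_im)
open Pool.Agent.H921R2.TatePole (nm nm_summable)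

section
variable {K : Type} [Field K] [NumberField K] (j : Ei ≃+* 𝓞 K)
  (hN : ∀ α : Ei, (Ideal.absNorm (Ideal.span {j α}) : ℤ) = nr α)

include hN

lemma norm_p (p : ℕ) : Ideal.absNorm (Ideal.span {(p : 𝓞 K)}) = p ^ 2 := by
  have h1 := hN (p : Ei)
  rw [map_natCast, nr_nat] at h1
  exact_mod_cast h1

lemma norm_cases {q : HeightOneSpectrum (𝓞 K)} {p : ℕ} (hp : p.Prime) (h : (p : 𝓞 K) ∈ q.asIdeal) :
    Ideal.absNorm q.asIdeal = p ∨
      (Ideal.absNorm q.asIdeal = p ^ 2 ∧ q.asIdeal = Ideal.span {(p : 𝓞 K)}) := by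
  obtain ⟨J, hJ⟩ := Ideal.dvd_span_singleton.2 h
  have h1 := norm_p j hN p
  rw [hJ, map_mul] at h1
  have h2 : Ideal.absNorm q.asIdeal ∣ p ^ 2 := ⟨_, h1.symm⟩
  obtain ⟨k, hk, hk2⟩ := (Nat.dvd_prime_pow hp).1 h2
  interval_cases k
  · exfalso
    rw [pow_zero, Ideal.absNorm_eq_one_iff] at hk2
    exact q.isPrime.ne_top hk2
  · left
    rw [hk2, pow_one]
  · right
    refine ⟨hk2, ?_⟩
    rw [hk2] at h1
    have h4 : 0 < p ^ 2 := pow_pos hp.pos 2
    have h5 : Ideal.absNorm J = 1 := Nat.eq_of_mul_eq_mul_left h4 (by rw [h1, mul_one])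
    rw [Ideal.absNorm_eq_one_iff] at h5
    rw [hJ, h5, Ideal.mul_top]

omit hN in
lemma exists_p (q : HeightOneSpectrum (𝓞 K)) : ∃ p : ℕ, p.Prime ∧ (p : 𝓞 K) ∈ q.asIdeal := by
  have key : ∀ n : ℕ, n ≠ 0 → (n : 𝓞 K) ∈ q.asIdeal → ∃ p : ℕ, p.Prime ∧ (p : 𝓞 K) ∈ q.asIdeal := by
    intro n
    induction n using Nat.strong_induction_on with
    | _ n ih =>
      intro hn0 hn
      by_cases h1 : n = 1
      · exfalso
        rw [h1, Nat.cast_one] at hn
        exact q.isPrime.ne_top ((Ideal.eq_top_iff_one _).2 hn)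
      · have hp := Nat.minFac_prime h1
        have h2 := Nat.minFac_dvd n
        obtain ⟨t, ht⟩ := h2
        have ht0 : t ≠ 0 := by
          rintro rfl
          exact hn0 (by rw [ht, mul_zero])
        have hn' : ((n.minFac : ℕ) : 𝓞 K) * (t : 𝓞 K) ∈ q.asIdeal := by
          rw [← Nat.cast_mul, ← ht]
          exact hn
        rcases q.isPrime.mem_or_mem hn' with h3 | h3
        · exact ⟨_, hp, h3⟩
        · refine ih t ?_ ht0 h3
          rw [ht]
          have := hp.two_le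
          have : 0 < t := Nat.pos_of_ne_zero ht0
          nlinarith
  refine key (Ideal.absNorm q.asIdeal) ?_ (Ideal.absNorm_mem _)
  rw [Ne, Ideal.absNorm_eq_zero_iff]
  exact q.ne_bot

lemma not_prime {q : HeightOneSpectrum (𝓞 K)} (h : ¬ (Ideal.absNorm q.asIdeal).Prime) :
    ∃ p : ℕ, p.Prime ∧ Ideal.absNorm q.asIdeal = p ^ 2 ∧ q.asIdeal = Ideal.span {(p : 𝓞 K)} := by
  obtain ⟨p, hp, h1⟩ := exists_p q
  rcases norm_cases j hN hp h1 with h2 | h2
  · exact absurd (h2 ▸ hp) h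
  · exact ⟨p, hp, h2⟩

omit hN in
lemma dvd_of (p : ℕ) (x : Ei) (h : (p : 𝓞 K) ∣ j x) : ((p : ℤ) : Ei) ∣ x := by
  obtain ⟨c, hc⟩ := h
  refine ⟨j.symm c, ?_⟩
  have h1 := congrArg j.symm hc
  rw [RingEquiv.symm_apply_apply, map_mul, map_natCast] at h1
  rw [h1, Int.cast_natCast]

lemma exists_pi (S : Finset (HeightOneSpectrum (𝓞 K))) (hS : ∀ q, q ∈ S ↔ (3 : 𝓞 K) ∈ q.asIdeal)
    (hg : ∀ q, q ∉ S → ∃ π : Ei, q.asIdeal = Ideal.span {j π})
    {p : ℕ} (hp : p.Prime) (h3 : p % 3 = 1) : ∃ π : Ei, nr π = p := by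
  have : Fact p.Prime := ⟨hp⟩
  -- a place above `p`
  have htop : Ideal.span {(p : 𝓞 K)} ≠ ⊤ := by
    intro h
    have h1 := norm_p j hN p
    rw [h, Ideal.absNorm_top] at h1
    have h2 := hp.two_le
    nlinarith
  obtain ⟨I, hI, hle⟩ := Ideal.exists_le_maximal _ htop
  have hpI : (p : 𝓞 K) ∈ I := hle (Ideal.mem_span_singleton_self _)
  have hbot : I ≠ ⊥ := by
    rintro rfl
    rw [Ideal.mem_bot] at hpI
    exact hp.ne_zero (by exact_mod_cast hpI)
  obtain ⟨q, hq⟩ : ∃ q : HeightOneSpectrum (𝓞 K), q.asIdeal = I := ⟨⟨I, hI.isPrime, hbot⟩, rfl⟩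
  have hpq : (p : 𝓞 K) ∈ q.asIdeal := by rw [hq]; exact hpI
  have hqS : q ∉ S := by
    rw [hS]
    intro h
    have h1 : (1 : 𝓞 K) = (p : 𝓞 K) - 3 * ((p / 3 : ℕ) : 𝓞 K) := by
      have h2 : p = 3 * (p / 3) + 1 := by omega
      have h4 : (p : 𝓞 K) = 3 * ((p / 3 : ℕ) : 𝓞 K) + 1 := by exact_mod_cast congrArg (Nat.cast (R := 𝓞 K)) h2
      linear_combination -h4
    have h2 : (1 : 𝓞 K) ∈ q.asIdeal := by
      rw [h1]
      exact q.asIdeal.sub_mem hpq (q.asIdeal.mul_mem_right _ h)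
    exact q.isPrime.ne_top ((Ideal.eq_top_iff_one _).2 h2)
  obtain ⟨π, hπ⟩ := hg q hqS
  rcases norm_cases j hN hp hpq with h | ⟨-, h⟩
  · refine ⟨π, ?_⟩
    rw [← hN, ← hπ, h]
  · exfalso
    -- a cube root of unity modulo `p`
    obtain ⟨z, hz⟩ : ∃ z : ZMod p, z ^ 2 + z + 1 = 0 := by
      have hcyc : IsCyclic (ZMod p)ˣ := inferInstance
      obtain ⟨g, hg⟩ := hcyc.exists_generator
      have ho : orderOf g = p - 1 := by
        rw [orderOf_eq_card_of_forall_mem_zpowers hg, Nat.card_eq_fintype_card, ZMod.card_units]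
      have hp2 := hp.two_le
      have hne : g ^ ((p - 1) / 3) ≠ 1 := by
        intro h
        have h4 := orderOf_dvd_of_pow_eq_one h
        rw [ho] at h4
        have h6 := Nat.le_of_dvd (by omega) h4
        omega
      have hc : (g ^ ((p - 1) / 3)) ^ 3 = 1 := by
        rw [← pow_mul]
        have : (p - 1) / 3 * 3 = p - 1 := by omega
        rw [this, ← ho, pow_orderOf_eq_one]
      refine ⟨((g ^ ((p - 1) / 3) : (ZMod p)ˣ) : ZMod p), ?_⟩
      set y : ZMod p := ((g ^ ((p - 1) / 3) : (ZMod p)ˣ) : ZMod p) with hy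
      have h1 : y ^ 3 = 1 := by
        rw [hy, ← Units.val_pow_eq_pow_val, hc, Units.val_one]
      have h2 : y - 1 ≠ 0 := by
        intro h
        apply hne
        apply Units.ext
        rw [Units.val_one]
        exact sub_eq_zero.1 h
      apply mul_left_cancel₀ h2
      linear_combination h1
    obtain ⟨n, hn⟩ := ZMod.intCast_surjective z
    have hdvd : (p : ℤ) ∣ n ^ 2 + n + 1 := by
      rw [← ZMod.intCast_zmod_eq_zero_iff_dvd _ p]
      push_cast
      rw [hn, hz]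
    have hpp : Prime (p : ℤ) := Nat.prime_iff_prime_int.1 hp
    have hmul : j ((n : Ei) - w) * j ((n : Ei) + 1 + w) ∈ q.asIdeal := by
      have e : ((n : Ei) - w) * ((n : Ei) + 1 + w) = ((n ^ 2 + n + 1 : ℤ) : Ei) := by
        have h1 : ((n : Ei) - w) * ((n : Ei) + 1 + w) = (n : Ei) ^ 2 + n - w - w * w := by ring
        rw [h1, w_sq]
        push_cast
        ring
      rw [← map_mul, e, map_intCast]
      obtain ⟨t, ht⟩ := hdvd
      rw [ht, Int.cast_mul, Int.cast_natCast]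
      exact q.asIdeal.mul_mem_right _ hpq
    rcases q.isPrime.mem_or_mem hmul with h5 | h5
    · rw [h, Ideal.mem_span_singleton] at h5
      obtain ⟨-, h1⟩ := int_dvd.1 (dvd_of j p _ h5)
      have h2 : ((n : Ei) - w).im = -1 := by
        rw [QuadraticAlgebra.im_sub, QuadraticAlgebra.im_intCast, w_im]; ring
      rw [h2] at h1
      exact hpp.not_isUnit (isUnit_of_dvd_one (by simpa using h1))
    · rw [h, Ideal.mem_span_singleton] at h5
      obtain ⟨-, h1⟩ := int_dvd.1 (dvd_of j p _ h5)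
      have h2 : ((n : Ei) + 1 + w).im = 1 := by
        rw [QuadraticAlgebra.im_add, QuadraticAlgebra.im_add, QuadraticAlgebra.im_intCast, w_im]
        rfl
      rw [h2] at h1
      exact hpp.not_isUnit (isUnit_of_dvd_one h1)

omit hN in
lemma star_not {π : Ei} {p : ℕ} (hp : p.Prime) (h3 : p % 3 = 1) (hπ : nr π = p) : ¬ π ∣ star π := by
  intro h
  have hpp : Prime (p : ℤ) := Nat.prime_iff_prime_int.1 hp
  obtain ⟨c, hc⟩ := dvd_sub h (dvd_refl π)
  have h1 : nr (star π - π) = 3 * π.im ^ 2 := by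
    unfold nr
    rw [QuadraticAlgebra.re_sub, QuadraticAlgebra.im_sub, star_re, star_im]
    ring
  have h2 : (p : ℤ) ∣ 3 * π.im ^ 2 := by
    rw [← h1, hc, nr_mul, hπ]
    exact dvd_mul_right _ _
  have h4 : (p : ℤ) ∣ π.im := by
    rcases hpp.dvd_or_dvd h2 with h5 | h5
    · exfalso
      have h6 : p ∣ 3 := by exact_mod_cast h5
      have h7 := (Nat.prime_dvd_prime_iff_eq hp Nat.prime_three).1 h6
      omega
    · exact hpp.dvd_of_dvd_pow h5
  have h5 : (p : ℤ) ∣ π.re := by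
    have h6 : (p : ℤ) ∣ π.re ^ 2 := by
      have h7 : π.re ^ 2 = p + π.im * (π.re - π.im) := by
        have h8 := hπ
        unfold nr at h8
        linear_combination h8
      rw [h7]
      exact dvd_add dvd_rfl (h4.mul_right _)
    exact hpp.dvd_of_dvd_pow h6
  obtain ⟨a, ha⟩ := h5
  obtain ⟨b, hb⟩ := h4
  have h6 : (p : ℤ) * (p * (a ^ 2 - a * b + b ^ 2)) = p * 1 := by
    have h8 := hπ
    unfold nr at h8
    rw [ha, hb] at h8
    linear_combination h8
  have h7 := mul_left_cancel₀ hpp.ne_zero h6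
  exact hpp.not_isUnit (isUnit_of_dvd_one ⟨_, h7.symm⟩)

lemma two_places (S : Finset (HeightOneSpectrum (𝓞 K))) (hS : ∀ q, q ∈ S ↔ (3 : 𝓞 K) ∈ q.asIdeal)
    (hg : ∀ q, q ∉ S → ∃ π : Ei, q.asIdeal = Ideal.span {j π})
    {p : ℕ} (hp : p.Prime) (h3 : p % 3 = 1) : ∃ q₁ q₂ : HeightOneSpectrum (𝓞 K), q₁ ≠ q₂ ∧
      Ideal.absNorm q₁.asIdeal = p ∧ Ideal.absNorm q₂.asIdeal = p ∧
      ∀ q : HeightOneSpectrum (𝓞 K), Ideal.absNorm q.asIdeal = p → q = q₁ ∨ q = q₂ := by
  obtain ⟨π, hπ⟩ := exists_pi j hN S hS hg hp h3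
  have key : ∀ ρ : Ei, nr ρ = p → ∃ q : HeightOneSpectrum (𝓞 K), q.asIdeal = Ideal.span {j ρ} ∧
      Ideal.absNorm q.asIdeal = p := by
    intro ρ hρ
    have h1 : Ideal.absNorm (Ideal.span {j ρ}) = p := by
      have h2 := hN ρ
      rw [hρ] at h2
      exact_mod_cast h2
    have h2 : (Ideal.span {j ρ}).IsPrime :=
      Ideal.isPrime_of_irreducible_absNorm (by rw [h1]; exact hp)
    have h4 : Ideal.span {j ρ} ≠ ⊥ := by
      intro h
      rw [h, Ideal.absNorm_bot] at h1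
      exact hp.ne_zero h1.symm
    exact ⟨⟨_, h2, h4⟩, rfl, h1⟩
  obtain ⟨q₁, h1, h1'⟩ := key π hπ
  obtain ⟨q₂, h2, h2'⟩ := key (star π) (by rw [nr_star, hπ])
  refine ⟨q₁, q₂, ?_, h1', h2', ?_⟩
  · intro h
    rw [h, h2] at h1
    have h4 : j (star π) ∈ Ideal.span {j π} := by
      rw [← h1]
      exact Ideal.mem_span_singleton_self _
    rw [Ideal.mem_span_singleton] at h4
    obtain ⟨c, hc⟩ := h4
    apply star_not hp h3 hπ
    refine ⟨j.symm c, ?_⟩
    have h5 := congrArg j.symm hc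
    rwa [RingEquiv.symm_apply_apply, map_mul, RingEquiv.symm_apply_apply] at h5
  · intro q hq
    have h4 : (p : 𝓞 K) ∈ q.asIdeal := by
      rw [← hq]
      exact Ideal.absNorm_mem _
    have h5 : j π * j (star π) ∈ q.asIdeal := by
      rw [← map_mul, mul_star, hπ, map_intCast, Int.cast_natCast]
      exact h4
    have fin : ∀ q' : HeightOneSpectrum (𝓞 K), q'.asIdeal ≤ q.asIdeal → q = q' := by
      intro q' hle
      apply HeightOneSpectrum.ext
      have hm : q'.asIdeal.IsMaximal := q'.isPrime.isMaximal q'.ne_bot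
      exact (hm.eq_of_le q.isPrime.ne_top hle).symm
    rcases q.isPrime.mem_or_mem h5 with h6 | h6
    · left
      refine fin q₁ ?_
      rw [h1, Ideal.span_singleton_le_iff_mem]
      exact h6
    · right
      refine fin q₂ ?_
      rw [h2, Ideal.span_singleton_le_iff_mem]
      exact h6

lemma summable_np : Summable fun q : HeightOneSpectrum (𝓞 K) =>
    Set.indicator {q : HeightOneSpectrum (𝓞 K) | ¬ (Ideal.absNorm q.asIdeal).Prime}
      (fun q => (Ideal.absNorm q.asIdeal : ℝ) ^ (-1 : ℝ)) q := by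
  have h1 : Summable fun q : {q : HeightOneSpectrum (𝓞 K) | ¬ (Ideal.absNorm q.asIdeal).Prime} =>
      (Ideal.absNorm q.1.asIdeal : ℝ) ^ (-1 : ℝ) := by
    have h2 : ∀ q : {q : HeightOneSpectrum (𝓞 K) | ¬ (Ideal.absNorm q.asIdeal).Prime}, ∃ p : ℕ,
        p.Prime ∧ Ideal.absNorm q.1.asIdeal = p ^ 2 ∧ q.1.asIdeal = Ideal.span {(p : 𝓞 K)} :=
      fun q => not_prime j hN q.2
    choose e he1 he2 he3 using h2
    have hinj : Function.Injective e := by
      intro q q' h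
      apply Subtype.ext
      apply HeightOneSpectrum.ext
      rw [he3 q, he3 q', h]
    have h4 : Summable fun n : ℕ => ((n : ℝ) ^ 2)⁻¹ := Real.summable_nat_pow_inv.2 (by norm_num)
    refine (h4.comp_injective hinj).congr fun q => ?_
    rw [Function.comp, he2 q, Real.rpow_neg_one]
    push_cast
    rfl
  exact summable_subtype_iff_indicator.1 h1

open Classical in
theorem core (S : Finset (HeightOneSpectrum (𝓞 K))) (hS : ∀ q, q ∈ S ↔ (3 : 𝓞 K) ∈ q.asIdeal)
    (hg : ∀ q, q ∉ S → ∃ π : Ei, q.asIdeal = Ideal.span {j π}) (m : ℕ) (hm : 3 ∣ m) :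
    ∃ C : ℝ, 0 ≤ C ∧ ∀ s : ℝ, 1 < s → s ≤ 2 →
    |∑' q : HeightOneSpectrum (𝓞 K), (if q ∉ S ∧ ((Ideal.absNorm q.asIdeal : ℕ) : ZMod m) = 1 then
        (Ideal.absNorm q.asIdeal : ℝ) ^ (-s) else 0) -
      2 * ∑' p : Nat.Primes, (if ((p : ℕ) : ZMod m) = 1 then ((p : ℕ) : ℝ) ^ (-s) else 0)| ≤ C := by
  have hmod : ∀ n : ℕ, (n : ZMod m) = 1 → n % 3 = 1 := by
    intro n hn
    have h1 := congrArg (ZMod.castHom hm (ZMod 3)) hn
    rw [map_natCast, map_one] at h1
    have h2 : ((n : ℕ) : ZMod 3) = ((1 : ℕ) : ZMod 3) := by rw [h1, Nat.cast_one]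
    have h3 := (ZMod.natCast_eq_natCast_iff' n 1 3).1 h2
    omega
  have hnS : ∀ q : HeightOneSpectrum (𝓞 K), Ideal.absNorm q.asIdeal % 3 = 1 → q ∉ S := by
    intro q hq
    rw [hS]
    intro h
    have h1 : (1 : 𝓞 K) = ((Ideal.absNorm q.asIdeal : ℕ) : 𝓞 K) -
        3 * ((Ideal.absNorm q.asIdeal / 3 : ℕ) : 𝓞 K) := by
      have h2 : Ideal.absNorm q.asIdeal = 3 * (Ideal.absNorm q.asIdeal / 3) + 1 := by omega
      have h4 : ((Ideal.absNorm q.asIdeal : ℕ) : 𝓞 K) =
          3 * ((Ideal.absNorm q.asIdeal / 3 : ℕ) : 𝓞 K) + 1 := by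
        exact_mod_cast congrArg (Nat.cast (R := 𝓞 K)) h2
      linear_combination -h4
    have h2 : (1 : 𝓞 K) ∈ q.asIdeal := by
      rw [h1]
      exact q.asIdeal.sub_mem (Ideal.absNorm_mem _) (q.asIdeal.mul_mem_right _ h)
    exact q.isPrime.ne_top ((Ideal.eq_top_iff_one _).2 h2)
  have H : ∀ x : {p : Nat.Primes | ((p : ℕ) : ZMod m) = 1},
      ∃ qq : HeightOneSpectrum (𝓞 K) × HeightOneSpectrum (𝓞 K), qq.1 ≠ qq.2 ∧
      Ideal.absNorm qq.1.asIdeal = (x.1 : ℕ) ∧ Ideal.absNorm qq.2.asIdeal = (x.1 : ℕ) ∧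
      ∀ q : HeightOneSpectrum (𝓞 K), Ideal.absNorm q.asIdeal = (x.1 : ℕ) → q = qq.1 ∨ q = qq.2 := by
    intro x
    obtain ⟨q₁, q₂, h⟩ := two_places j hN S hS hg x.1.2 (hmod _ x.2)
    exact ⟨(q₁, q₂), h⟩
  choose qq hne hN1 hN2 hq using H
  have ext1 : ∀ x y : {p : Nat.Primes | ((p : ℕ) : ZMod m) = 1}, (x.1 : ℕ) = (y.1 : ℕ) → x = y :=
    fun x y h => Subtype.ext (Subtype.ext h)
  have inj1 : Function.Injective fun x => (qq x).1 := by
    intro x y h
    apply ext1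
    rw [← hN1 x, ← hN1 y]
    exact congrArg (fun q : HeightOneSpectrum (𝓞 K) => Ideal.absNorm q.asIdeal) h
  have inj2 : Function.Injective fun x => (qq x).2 := by
    intro x y h
    apply ext1
    rw [← hN2 x, ← hN2 y]
    exact congrArg (fun q : HeightOneSpectrum (𝓞 K) => Ideal.absNorm q.asIdeal) h
  have hpos : ∀ q : HeightOneSpectrum (𝓞 K), (1 : ℝ) ≤ (Ideal.absNorm q.asIdeal : ℝ) := by
    intro q
    have h1 : Ideal.absNorm q.asIdeal ≠ 0 := by
      rw [Ne, Ideal.absNorm_eq_zero_iff]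
      exact q.ne_bot
    exact_mod_cast Nat.one_le_iff_ne_zero.2 h1
  have hnp := summable_np j hN
  refine ⟨∑' q : HeightOneSpectrum (𝓞 K),
    Set.indicator {q : HeightOneSpectrum (𝓞 K) | ¬ (Ideal.absNorm q.asIdeal).Prime}
      (fun q => (Ideal.absNorm q.asIdeal : ℝ) ^ (-1 : ℝ)) q,
    tsum_nonneg fun q => Set.indicator_nonneg (fun q _ => by positivity) q, fun s hs hs2 => ?_⟩
  have hsum : Summable fun q : HeightOneSpectrum (𝓞 K) => (Ideal.absNorm q.asIdeal : ℝ) ^ (-s) :=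
    nm_summable hs
  have hs0 : ∀ q : HeightOneSpectrum (𝓞 K), 0 ≤ (Ideal.absNorm q.asIdeal : ℝ) ^ (-s) :=
    fun q => by positivity
  have hsub : ∀ (P : HeightOneSpectrum (𝓞 K) → Prop) [DecidablePred P], Summable fun q =>
      if P q then (Ideal.absNorm q.asIdeal : ℝ) ^ (-s) else 0 := by
    intro P _
    refine Summable.of_nonneg_of_le (fun q => ?_) (fun q => ?_) hsum
    · split_ifs
      · exact hs0 q
      · exact le_rfl
    · split_ifs
      · exact le_rfl
      · exact hs0 q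
  have e0 : ∀ q : HeightOneSpectrum (𝓞 K),
      (if q ∉ S ∧ ((Ideal.absNorm q.asIdeal : ℕ) : ZMod m) = 1 then
        (Ideal.absNorm q.asIdeal : ℝ) ^ (-s) else 0) =
      (if q ∈ Set.range (fun x => (qq x).1) then (Ideal.absNorm q.asIdeal : ℝ) ^ (-s) else 0) +
      (if q ∈ Set.range (fun x => (qq x).2) then (Ideal.absNorm q.asIdeal : ℝ) ^ (-s) else 0) +
      (if q ∉ S ∧ ((Ideal.absNorm q.asIdeal : ℕ) : ZMod m) = 1 ∧
        ¬ (Ideal.absNorm q.asIdeal).Prime then (Ideal.absNorm q.asIdeal : ℝ) ^ (-s) else 0) := by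
    intro q
    by_cases hpr : (Ideal.absNorm q.asIdeal).Prime
    · rw [if_neg (c := q ∉ S ∧ _ ∧ ¬ _) (fun h => h.2.2 hpr), add_zero]
      by_cases hok : ((Ideal.absNorm q.asIdeal : ℕ) : ZMod m) = 1
      · rw [if_pos ⟨hnS q (hmod _ hok), hok⟩]
        set x : {p : Nat.Primes | ((p : ℕ) : ZMod m) = 1} := ⟨⟨_, hpr⟩, hok⟩ with hx
        rcases hq x q rfl with h | h
        · rw [if_pos ⟨x, h.symm⟩, if_neg, add_zero]
          rintro ⟨y, hy⟩
          have h1 : x = y := ext1 _ _ (by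
            rw [← hN2 y]
            exact congrArg (fun q : HeightOneSpectrum (𝓞 K) => Ideal.absNorm q.asIdeal) hy.symm)
          apply hne x
          rw [← h]
          exact hy.symm.trans (by rw [h1])
        · rw [if_pos (c := q ∈ Set.range fun x => (qq x).2) ⟨x, h.symm⟩, if_neg, zero_add]
          rintro ⟨y, hy⟩
          have h1 : x = y := ext1 _ _ (by
            rw [← hN1 y]
            exact congrArg (fun q : HeightOneSpectrum (𝓞 K) => Ideal.absNorm q.asIdeal) hy.symm)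
          apply hne x
          rw [← h, h1]
          exact hy
      · rw [if_neg (fun h => hok h.2), if_neg, if_neg, add_zero]
        · rintro ⟨y, hy⟩
          apply hok
          rw [← hy, hN2 y]
          exact y.2
        · rintro ⟨y, hy⟩
          apply hok
          rw [← hy, hN1 y]
          exact y.2
    · rw [if_neg (c := q ∈ Set.range fun x => (qq x).1), if_neg (c := q ∈ Set.range fun x => (qq x).2),
        zero_add, zero_add]
      · by_cases h : q ∉ S ∧ ((Ideal.absNorm q.asIdeal : ℕ) : ZMod m) = 1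
        · rw [if_pos h, if_pos ⟨h.1, h.2, hpr⟩]
        · rw [if_neg h, if_neg fun h' => h ⟨h'.1, h'.2.1⟩]
      · rintro ⟨y, hy⟩
        apply hpr
        rw [← hy, hN2 y]
        exact y.1.2
      · rintro ⟨y, hy⟩
        apply hpr
        rw [← hy, hN1 y]
        exact y.1.2
  have e1 : ∀ f : {p : Nat.Primes | ((p : ℕ) : ZMod m) = 1} → HeightOneSpectrum (𝓞 K),
      Function.Injective f → (∀ x, Ideal.absNorm (f x).asIdeal = (x.1 : ℕ)) →
      ∑' q : HeightOneSpectrum (𝓞 K),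
        (if q ∈ Set.range f then (Ideal.absNorm q.asIdeal : ℝ) ^ (-s) else 0) =
      ∑' p : Nat.Primes, (if ((p : ℕ) : ZMod m) = 1 then ((p : ℕ) : ℝ) ^ (-s) else 0) := by
    intro f hf hfN
    rw [← hf.tsum_eq (f := fun q : HeightOneSpectrum (𝓞 K) =>
      if q ∈ Set.range f then (Ideal.absNorm q.asIdeal : ℝ) ^ (-s) else 0)]
    · have h1 : ∀ x : {p : Nat.Primes | ((p : ℕ) : ZMod m) = 1},
          (if f x ∈ Set.range f then (Ideal.absNorm (f x).asIdeal : ℝ) ^ (-s) else 0) =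
          (((x.1 : ℕ) : ℝ)) ^ (-s) := by
        intro x
        rw [if_pos ⟨x, rfl⟩, hfN x]
      rw [tsum_congr h1]
      have h2 := tsum_subtype {p : Nat.Primes | ((p : ℕ) : ZMod m) = 1}
        (fun p : Nat.Primes => ((p : ℕ) : ℝ) ^ (-s))
      rw [h2]
      refine tsum_congr fun p => ?_
      rw [Set.indicator_apply]
      rfl
    · intro q hq
      by_contra hcon
      apply hq
      exact if_neg hcon
  have t1 := hsub (fun q => q ∈ Set.range (fun x => (qq x).1))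
  have t2 := hsub (fun q => q ∈ Set.range (fun x => (qq x).2))
  have t3 := hsub (fun q => q ∉ S ∧ ((Ideal.absNorm q.asIdeal : ℕ) : ZMod m) = 1 ∧
        ¬ (Ideal.absNorm q.asIdeal).Prime)
  have e2 := (t1.add t2).tsum_add t3
  have e3 := t1.tsum_add t2
  have e4 := e1 _ inj1 hN1
  have e5 := e1 _ inj2 hN2
  have e6 := (tsum_congr e0).trans e2
  rw [e3, e4, e5] at e6
  rw [e6, ← two_mul, add_sub_cancel_left]
  rw [abs_of_nonneg (tsum_nonneg fun q => by
    split_ifs
    · exact hs0 q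
    · exact le_rfl)]
  refine (hsub _).tsum_le_tsum (fun q => ?_) hnp
  by_cases h : (Ideal.absNorm q.asIdeal).Prime
  · rw [if_neg fun h' => h'.2.2 h]
    exact Set.indicator_nonneg (fun q _ => by positivity) q
  · rw [Set.indicator_of_mem (show q ∈ {q : HeightOneSpectrum (𝓞 K) |
      ¬ (Ideal.absNorm q.asIdeal).Prime} from h)]
    split_ifs
    · exact Real.rpow_le_rpow_of_exponent_le (hpos q) (by linarith)
    · positivity

end

end T2h16.PK.MASE
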