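import Pool.Agent.T3h73.SG.StmX
import Pool.Agent.T3h73.SD.Stm3
import Pool.Agent.T2h16.TT.Cri

/-!
# Project PK (helper16, MP_a43263): a positive proportion of all characters of order `3 ^ k`

`K = ℚ(ω)`, `E : y² + y = x³`, `k ≥ 2`; `P` runs over the finite sets of admissible Eisenstein primes
(`1` modulo `3`, norm `1` modulo `3 ^ (k + 1)`) with the weight `N(P) ^ (-s)`, `s → 1+`, and the characters
modulo the primes of `P` are arbitrary characters of exact order `3 ^ k`. Statements of the parts.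
-/

set_option autoImplicit false
set_option linter.all false

open NumberField IsDedekindDomain Filter Topology

namespace T2h16.PK

open Pool.Agent.T3h73.SL (Pl)
open Pool.Agent.T3h73.SD (ee NA gA T0 SymSys Cl Rc kap S_BL S_LU S_UNL S_CNTU S_KAP S_T0L)
open Pool.Agent.T3h73.SG (Ad Dj NO gO Fib Mass CS TupX trmX CSum S_XAN S_XMAS)
open Pool.Agent.Y773.G (IsModChar)
open Pool.Agent.Y715.T.Rec (cs la)
open Pool.Agent.Y715.T.RecG (Pq)
open Pool.Agent.Y692.QS (Ei w nr)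

/-! ### General part: Euler products over the places selected by characters -/

open Classical in
/-- a system of symbols and characters `ψ i` that select the places with `Om` -/
structure RES (ℓ : ℕ) (K : Type) [Field K] [NumberField K] (S : Finset (Pl K))
    (𝔪 : Ideal (𝓞 K)) (Λ : Type) [AddCommGroup Λ] (χ : Λ → Pl K → ZMod ℓ)
    (sy : Pl K → Pl K → ZMod ℓ) (ι : Type) [Fintype ι] (ψ : ι → Ideal (𝓞 K) →*₀ ℂ)
    (Om : Pl K → Prop) (c : ℝ) : Prop where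
  sys : SymSys ℓ K S 𝔪 Λ χ sy
  cpos : 0 < c
  chr : ∀ i, IsModChar 𝔪 (fun _ => 0) (ψ i)
  orth : ∀ q : Pl K, q ∉ S → ∑ i, ψ i q.asIdeal = if Om q then (c : ℂ) else 0
  non : ∀ (h : Λ) (j : Pl K → ZMod ℓ) (B : Finset (Pl K)), Disjoint B S → (∀ b, j b ≠ 0 ↔ b ∈ B) →
    (h ≠ 0 ∨ B.Nonempty) → ∀ η : Ideal (𝓞 K) →*₀ ℂ,
    IsModChar (𝔪 * ∏ b ∈ B, b.asIdeal) (fun _ => 0) η →
    (∀ q : Pl K, q ∉ S → q ∉ B → η q.asIdeal = ee ℓ (χ h q + ∑ b ∈ B, j b * sy b q)) →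
    ∀ i, ∃ 𝔞, IsCoprime 𝔞 (𝔪 * ∏ b ∈ B, b.asIdeal) ∧ η 𝔞 * ψ i 𝔞 ≠ 1

open Classical in
/-- EULR: the sums over one variable, restricted to the selected places (compare `S_EUL`) -/
def S_EULR : Prop := ∀ (ℓ : ℕ) (_ : ℓ.Prime) (K : Type) [Field K] [NumberField K]
  (S : Finset (Pl K)) (𝔪 : Ideal (𝓞 K)) (Λ : Type) [AddCommGroup Λ] (χ : Λ → Pl K → ZMod ℓ)
  (sy : Pl K → Pl K → ZMod ℓ) (ι : Type) [Fintype ι] (ψ : ι → Ideal (𝓞 K) →*₀ ℂ)
  (Om : Pl K → Prop) (c : ℝ), RES ℓ K S 𝔪 Λ χ sy ι ψ Om c → ∀ lam : ℝ, 0 < lam → lam ≤ 1 →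
  ∃ C : ℝ, 0 < C ∧
  ∀ (h : Λ) (j : Pl K → ZMod ℓ) (B F : Finset (Pl K)), Disjoint B S → (∀ b, j b ≠ 0 ↔ b ∈ B) →
  (h ≠ 0 ∨ B.Nonempty) → ∀ s : ℝ, 1 < s → s ≤ 2 →
  ‖∑' A : Finset (Pl K), if (∀ q ∈ A, Om q) ∧ Disjoint A S ∧ Disjoint A B ∧ Disjoint A F then
    ((lam ^ A.card * (NA A : ℝ) ^ (-s) : ℝ) : ℂ) *
      ee ℓ (∑ q ∈ A, (χ h q + ∑ b ∈ B, j b * sy b q)) else 0‖ ≤
    C * (1 + Real.log (NA B)) ^ C * gA F ^ C

open Classical in
/-- DISG: from the moments to the proportion of the smallest value -/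
def S_DISG : Prop := ∀ (I : Type) (wt : ℝ → I → ℝ) (d : I → ℕ) (T : ℝ → ℝ) (C : ℝ), 0 ≤ C →
  (∀ s i, 1 < s → s ≤ 2 → 0 ≤ wt s i) → (∀ s, 1 < s → s ≤ 2 → 0 < T s) →
  (∀ (r : ℕ) (s : ℝ), 1 < s → s ≤ 2 → Summable fun i => wt s i * ((3 : ℝ) ^ d i) ^ r) →
  (∀ r : ℕ, Tendsto (fun s : ℝ => (∑' i, wt s i * ((3 : ℝ) ^ d i) ^ r) / T s) (𝓝[>] 1)
    (𝓝 (C * ∏ i ∈ Finset.range r, (1 + (3 : ℝ) ^ i)))) →
  Tendsto (fun s : ℝ => (∑' i, if d i = 0 then wt s i else 0) / T s) (𝓝[>] 1) (𝓝 (C * kap 3))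

open Classical in
/-- DIR: Dirichlet's theorem for the primes that are `1` modulo `m` -/
def S_DIR : Prop := ∀ m : ℕ, 1 ≤ m → ∃ C : ℝ, 0 ≤ C ∧ ∀ s : ℝ, 1 < s → s ≤ 2 →
  |∑' p : Nat.Primes, (if ((p : ℕ) : ZMod m) = 1 then ((p : ℕ) : ℝ) ^ (-s) else 0) -
    (m.totient : ℝ)⁻¹ * Real.log (1 / (s - 1))| ≤ C

/-! ### The Eisenstein integers as the ring of integers of `K` -/

section
variable {K : Type} [Field K] [NumberField K] (j : Ei ≃+* 𝓞 K)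

open Classical in
/-- the primary generator of a place -/
noncomputable def pg (q : Pl K) : Ei :=
  if h : ∃ π : Ei, Pq π ∧ q.asIdeal = Ideal.span {j π} then h.choose else 0

/-- the class modulo `9`, for `x = 1` modulo `3` -/
def tt (x : Ei) : ZMod 3 := (((x.re - 1) / 3 : ℤ) : ZMod 3)

open Classical in
/-- the symbols -/
noncomputable def syE (p q : Pl K) : ZMod 3 := if p = q then 0 else cs (pg j p) (pg j q)

/-- the characters modulo `9` -/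
noncomputable def chE (h : ZMod 3) (q : Pl K) : ZMod 3 := h * tt (pg j q)

end

/-- `S` is the set of the places above `3` -/
def IsS {K : Type} [Field K] [NumberField K] (S : Finset (Pl K)) : Prop :=
  ∀ q : Pl K, q ∈ S ↔ (3 : 𝓞 K) ∈ q.asIdeal

/-- the admissible places -/
def Ok (k : ℕ) {K : Type} [Field K] [NumberField K] (q : Pl K) : Prop :=
  ((Ideal.absNorm q.asIdeal : ℕ) : ZMod (3 ^ (k + 1))) = 1

/-- the modulus -/
noncomputable def mE (k : ℕ) (K : Type) [Field K] [NumberField K] : Ideal (𝓞 K) :=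
  Ideal.span {(3 : 𝓞 K) ^ (k + 1)}

/-- EXK: the number field -/
def S_EXK : Prop := ∃ (K : Type) (_ : Field K) (_ : NumberField K), Nonempty (Ei ≃+* 𝓞 K)

/-- EGEN: places and primary primes -/
def S_EGEN : Prop := ∀ (K : Type) [Field K] [NumberField K] (j : Ei ≃+* 𝓞 K),
  (∃ S : Finset (Pl K), IsS S) ∧
  (∀ α : Ei, (Ideal.absNorm (Ideal.span {j α}) : ℤ) = nr α) ∧
  ∀ S : Finset (Pl K), IsS S →
  (∀ q : Pl K, q ∉ S → Pq (pg j q) ∧ q.asIdeal = Ideal.span {j (pg j q)} ∧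
    (Ideal.absNorm q.asIdeal : ℤ) = nr (pg j q)) ∧
  (∀ π : Ei, Pq π → ∃ q : Pl K, q ∉ S ∧ pg j q = π) ∧
  ∀ q q' : Pl K, q ∉ S → q' ∉ S → pg j q = pg j q' → q = q'

/-- ESYM: the system of symbols -/
def S_ESYM : Prop := ∀ (K : Type) [Field K] [NumberField K] (j : Ei ≃+* 𝓞 K) (S : Finset (Pl K)),
  IsS S → ∀ k : ℕ, 1 ≤ k → SymSys 3 K S (mE k K) (ZMod 3) (chE j) (syE j)

/-- ENON: twists of the characters of the system by Dirichlet characters of the norm -/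
def S_ENON : Prop := ∀ (K : Type) [Field K] [NumberField K] (j : Ei ≃+* 𝓞 K) (S : Finset (Pl K)),
  IsS S → ∀ k : ℕ, 1 ≤ k → ∀ (h : ZMod 3) (jj : Pl K → ZMod 3) (B : Finset (Pl K)), Disjoint B S →
  (∀ b, jj b ≠ 0 ↔ b ∈ B) → (h ≠ 0 ∨ B.Nonempty) → ∀ η : Ideal (𝓞 K) →*₀ ℂ,
  IsModChar (mE k K * ∏ b ∈ B, b.asIdeal) (fun _ => 0) η →
  (∀ q : Pl K, q ∉ S → q ∉ B → η q.asIdeal = ee 3 (chE j h q + ∑ b ∈ B, jj b * syE j b q)) →
  ∀ ϑ : DirichletCharacter ℂ (3 ^ (k + 1)), ∃ 𝔞 : Ideal (𝓞 K),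
    IsCoprime 𝔞 (mE k K * ∏ b ∈ B, b.asIdeal) ∧
    η 𝔞 * ϑ ((Ideal.absNorm 𝔞 : ℕ) : ZMod (3 ^ (k + 1))) ≠ 1

open Classical in
/-- EDIR: the Dirichlet characters of the norm are ray class characters; they select the admissible
places -/
def S_EDIR : Prop := ∀ (K : Type) [Field K] [NumberField K] (j : Ei ≃+* 𝓞 K) (S : Finset (Pl K)),
  IsS S → ∀ k : ℕ, ∃ ψ : DirichletCharacter ℂ (3 ^ (k + 1)) → Ideal (𝓞 K) →*₀ ℂ,
  (∀ ϑ 𝔞, ψ ϑ 𝔞 = ϑ ((Ideal.absNorm 𝔞 : ℕ) : ZMod (3 ^ (k + 1)))) ∧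
  (∀ ϑ, IsModChar (mE k K) (fun _ => 0) (ψ ϑ)) ∧
  ∀ q : Pl K, q ∉ S → ∑ ϑ : DirichletCharacter ℂ (3 ^ (k + 1)), ψ ϑ q.asIdeal =
    if Ok k q then ((2 * 3 ^ k : ℝ) : ℂ) else 0

open Classical in
/-- MASE: the masses of the admissible and of the other places -/
def S_MASE : Prop := ∀ (K : Type) [Field K] [NumberField K] (j : Ei ≃+* 𝓞 K) (S : Finset (Pl K)),
  IsS S → ∀ k : ℕ, 1 ≤ k → ∃ C : ℝ, 0 ≤ C ∧ ∀ s : ℝ, 1 < s → s ≤ 2 →
  |∑' q : Pl K, (if q ∉ S ∧ Ok k q then (Ideal.absNorm q.asIdeal : ℝ) ^ (-s) else 0) -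
    ((3 : ℝ) ^ k)⁻¹ * Real.log (1 / (s - 1))| ≤ C ∧
  |∑' q : Pl K, (if q ∉ S ∧ ¬ Ok k q then (Ideal.absNorm q.asIdeal : ℝ) ^ (-s) else 0) -
    (1 - ((3 : ℝ) ^ k)⁻¹) * Real.log (1 / (s - 1))| ≤ C

/-! ### The coloured system -/

/-- the colours: `none` for the other places -/
abbrev Co (r : ℕ) : Type := Option (Cl 3 r × Fin 2)

/-- the two exponents -/
def ex (i : Fin 2) : ZMod 3 := if i = 0 then 1 else 2

section
variable {K : Type} [Field K] [NumberField K] (j : Ei ≃+* 𝓞 K) (k r : ℕ) (β : ZMod 3)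

/-- the marked places -/
def OmC (c : Co r) (q : Pl K) : Prop := match c with
  | some _ => Ok k q
  | none => ¬ Ok k q

/-- the weights -/
noncomputable def lamC (c : Co r) : ℝ := match c with
  | some _ => ((3 : ℝ) ^ r)⁻¹ / 2
  | none => 1

/-- the masses -/
noncomputable def muC (c : Co r) : ℝ := match c with
  | some _ => ((3 : ℝ) ^ r)⁻¹ / 2 * ((3 : ℝ) ^ k)⁻¹
  | none => 1 - ((3 : ℝ) ^ k)⁻¹

/-- the characters -/
noncomputable def chC (c : Co r) (q : Pl K) : ZMod 3 := match c with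
  | some x => β * ex x.2 * tt (pg j q)
  | none => 0

/-- the pairings -/
noncomputable def rhoC (c c' : Co r) (p q : Pl K) : ZMod 3 := match c, c' with
  | some x, some y => ex x.2 * ex y.2 * Rc 3 r y.1 x.1 * syE j p q
  | _, _ => 0

/-- the linked colours -/
def lkC (c c' : Co r) : Prop := match c, c' with
  | some x, some y => Rc 3 r x.1 y.1 + Rc 3 r y.1 x.1 ≠ 0
  | _, _ => False

/-- the trivial colours -/
def trC (c : Co r) : Prop := match c with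
  | some _ => β = 0
  | none => True

/-- the functions of the sets of one colour -/
noncomputable def IC (c : Co r) (A : Finset (Pl K)) : ℂ := ee 3 (∑ q ∈ A, chC j r β c q)

end

open Classical in
/-- CSB: the bilinear sums of two linked colours -/
def S_CSB : Prop := ∀ (K : Type) [Field K] [NumberField K] (j : Ei ≃+* 𝓞 K) (S : Finset (Pl K)),
  IsS S → ∀ (k r : ℕ), 1 ≤ k → ∀ c c' : Co r, c ≠ c' → lkC r c c' →
  ∃ E θ : ℝ, 0 < E ∧ 0 < θ ∧ ∀ M N : ℝ, 1 ≤ M → 1 ≤ N →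
    ∀ 𝒜 ℬ : Finset (Finset (Pl K)),
    (∀ A ∈ 𝒜, Ad S (id : Pl K → Pl K) (OmC k r c) A ∧ (NO (id : Pl K → Pl K) A : ℝ) ≤ M) →
    (∀ B ∈ ℬ, Ad S (id : Pl K → Pl K) (OmC k r c') B ∧ (NO (id : Pl K → Pl K) B : ℝ) ≤ N) →
    ∀ α β : Finset (Pl K) → ℂ, (∀ A, ‖α A‖ ≤ 1) → (∀ B, ‖β B‖ ≤ 1) →
    ‖∑ A ∈ 𝒜, ∑ B ∈ ℬ, if Dj (id : Pl K → Pl K) A B then α A * β B *
        ee 3 (∑ w ∈ A, ∑ w' ∈ B, (rhoC j r c c' w w' + rhoC j r c' c w' w)) else 0‖ ≤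
      E * M * N * (min M N) ^ (-θ) * (1 + Real.log M + Real.log N) ^ E

open Classical in
/-- CSE: the sums over one variable of the coloured system -/
def S_CSE : Prop := ∀ (K : Type) [Field K] [NumberField K] (j : Ei ≃+* 𝓞 K) (S : Finset (Pl K)),
  IsS S → ∀ (k r : ℕ) (β : ZMod 3), 1 ≤ k → ∀ c : Co r,
  ∃ E : ℝ, 0 < E ∧ ∀ (B : Co r → Finset (Pl K)) (F : Finset (Pl K)),
    (∀ c', Ad S (id : Pl K → Pl K) (OmC k r c') (B c')) →
    (∀ c' c'', c' ≠ c'' → Dj (id : Pl K → Pl K) (B c') (B c'')) → B c = ∅ →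
    (¬ trC r β c ∨ ∃ c', lkC r c' c ∧ (B c').Nonempty) → ∀ s : ℝ, 1 < s → s ≤ 2 →
    ‖∑' A : Finset (Pl K), if Ad S (id : Pl K → Pl K) (OmC k r c) A ∧
        (∀ c', Dj (id : Pl K → Pl K) A (B c')) ∧ Disjoint (A.image (id : Pl K → Pl K)) F then
      ((lamC r c ^ A.card * (NO (id : Pl K → Pl K) A : ℝ) ^ (-s) : ℝ) : ℂ) *
        ee 3 (∑ w ∈ A, (chC j r β c w +
          ∑ c', ∑ b ∈ B c', (rhoC j r c c' w b + rhoC j r c' c b w))) else 0‖ ≤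
      E * (1 + Real.log (∏ c', (NO (id : Pl K → Pl K) (B c') : ℝ))) ^ E * gA F ^ E

/-- CSK: the coloured system -/
def S_CSK : Prop := ∀ (K : Type) [Field K] [NumberField K] (j : Ei ≃+* 𝓞 K) (S : Finset (Pl K)),
  IsS S → ∀ (k r : ℕ) (β : ZMod 3), 1 ≤ k →
  CS 3 K S (Pl K) id (Co r) (OmC k r) (lamC r) (muC k r) (IC j r β) (chC j r β) (rhoC j r) (lkC r)
    (fun _ => True) (trC r β)

open Classical in
/-- CMF: the combinatorial part of CSK -/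
def S_CMF : Prop := ∀ (k r : ℕ), 1 ≤ k → ∀ U : Finset (Co r),
  (∀ c ∈ U, ∀ c' ∈ U, c ≠ c' → ¬ lkC r c c') → ∑ c ∈ U, muC k r c ≤ 1 ∧
  (∑ c ∈ U, muC k r c = 1 → none ∈ U ∧ ∑ c ∈ U.erase none, lamC r c = 1)

open Classical in
/-- CNTK: the number of the maximal unlinked sets of trivial colours -/
def S_CNTK : Prop := ∀ (k r : ℕ) (β : ZMod 3), 1 ≤ k →
  Nat.card {U : Finset (Co r) // (∀ c ∈ U, ∀ c' ∈ U, c ≠ c' → ¬ lkC r c c') ∧
    ∑ c ∈ U, muC k r c = 1 ∧ ∀ c ∈ U, trC r β c} =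
  if β = 0 then 3 ^ r * ∏ i ∈ Finset.range r, (1 + 3 ^ i) else 0

/-! ### The moments -/

section
variable {K : Type} [Field K] [NumberField K] (j : Ei ≃+* 𝓞 K) (S : Finset (Pl K)) (k : ℕ)

open Classical in
/-- the sum over the sets of admissible places -/
noncomputable def TP (s : ℝ) : ℝ :=
  ∑' P : Finset (Pl K), if Disjoint P S ∧ ∀ q ∈ P, Ok k q then (NA P : ℝ) ^ (-s) else 0

open Classical in
/-- the sum over the sets of the other places -/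
noncomputable def TN (s : ℝ) : ℝ :=
  ∑' P : Finset (Pl K), if Disjoint P S ∧ ∀ q ∈ P, ¬ Ok k q then (NA P : ℝ) ^ (-s) else 0

/-- the number of the solutions of the system of the weighted Laplacian -/
noncomputable def nL (P : Finset (Pl K)) (e : P → Fin 2) : ℕ :=
  Nat.card {v : P → ZMod 3 // ∀ p : P, ∑ q : P, ex (e q) * syE j p q * (v q - v p) = 0}

open Classical in
/-- the mean of `F e` over the `e` of class `τ` modulo `9` -/
noncomputable def mean (τ : ZMod 3) (P : Finset (Pl K)) (F : (P → Fin 2) → ℝ) : ℝ :=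
  ((2 : ℝ) ^ P.card)⁻¹ * ∑ e : P → Fin 2, if ∑ q : P, ex (e q) * tt (pg j q) = τ then F e else 0

open Classical in
/-- the sums of the means -/
noncomputable def MR (τ : ZMod 3) (F : ∀ P : Finset (Pl K), (P → Fin 2) → ℝ) (s : ℝ) : ℝ :=
  ∑' P : Finset (Pl K), if Disjoint P S ∧ ∀ q ∈ P, Ok k q then
    (NA P : ℝ) ^ (-s) * mean j τ P (F P) else 0

open Classical in
/-- the sum over the colourings of a set of admissible places -/
noncomputable def WP (r : ℕ) (β : ZMod 3) (P : Finset (Pl K)) : ℂ :=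
  ∑ col : P → Cl 3 r × Fin 2, (((((3 : ℝ) ^ r)⁻¹ / 2) ^ P.card : ℝ) : ℂ) *
    ee 3 (∑ q : P, chC j r β (some (col q)) q +
      ∑ p : P, ∑ q : P, if p = q then 0 else rhoC j r (some (col p)) (some (col q)) p q)

end

open Classical in
/-- FINI: the finite identity -/
def S_FINI : Prop := ∀ (K : Type) [Field K] [NumberField K] (j : Ei ≃+* 𝓞 K) (S : Finset (Pl K)),
  IsS S → ∀ (r : ℕ) (τ : ZMod 3) (P : Finset (Pl K)), Disjoint P S →
  ((mean j τ P (fun e => (nL j P e : ℝ) ^ r) : ℝ) : ℂ) =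
    1 / 3 * ∑ β : ZMod 3, ee 3 (-(β * τ)) * WP j r β P

open Classical in
/-- TUPK: the coloured sum is a product -/
def S_TUPK : Prop := ∀ (K : Type) [Field K] [NumberField K] (j : Ei ≃+* 𝓞 K) (S : Finset (Pl K)),
  IsS S → ∀ (k r : ℕ) (β : ZMod 3), 1 ≤ k → ∀ s : ℝ, 1 < s → s ≤ 2 →
  CSum S (id : Pl K → Pl K) (OmC k r) (lamC r) (IC j r β) (rhoC j r) s =
    (∑' P : Finset (Pl K), if Disjoint P S ∧ ∀ q ∈ P, Ok k q then
      (((NA P : ℝ) ^ (-s) : ℝ) : ℂ) * WP j r β P else 0) * ((TN S k s : ℝ) : ℂ)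

open Classical in
/-- TPN: elementary properties of `TP`, `TN`, `nL` -/
def S_TPN : Prop := ∀ (K : Type) [Field K] [NumberField K] (j : Ei ≃+* 𝓞 K) (S : Finset (Pl K)),
  IsS S → ∀ k : ℕ, 1 ≤ k →
  (∀ s : ℝ, 1 < s → T0 S s = TP S k s * TN S k s ∧ 1 ≤ TP S k s ∧ 1 ≤ TN S k s ∧
    ∀ r : ℕ, Summable fun P : Finset (Pl K) => (NA P : ℝ) ^ (-s) * (3 : ℝ) ^ (r * P.card)) ∧
  Tendsto (fun s : ℝ => TP S k s) (𝓝[>] 1) atTop ∧
  ∀ (P : Finset (Pl K)) (e : P → Fin 2), ∃ d : ℕ, nL j P e = 3 ^ d ∧ d ≤ P.card ∧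
    (P.Nonempty → 1 ≤ d)

/-- MOMK: the moments -/
def S_MOMK : Prop := ∀ (K : Type) [Field K] [NumberField K] (j : Ei ≃+* 𝓞 K) (S : Finset (Pl K)),
  IsS S → ∀ (k r : ℕ) (τ : ZMod 3), 1 ≤ k →
  Tendsto (fun s : ℝ => MR j S k τ (fun P e => (nL j P e : ℝ) ^ r) s / TP S k s) (𝓝[>] 1)
    (𝓝 (1 / 3 * (3 ^ r * ∏ i ∈ Finset.range r, (1 + (3 : ℝ) ^ i))))

open Classical in
/-- DISK: the proportion of the nonempty sets with minimal kernel, in each class modulo `9` -/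
def S_DISK : Prop := ∀ (K : Type) [Field K] [NumberField K] (j : Ei ≃+* 𝓞 K) (S : Finset (Pl K)),
  IsS S → ∀ (k : ℕ) (τ : ZMod 3), 1 ≤ k →
  Tendsto (fun s : ℝ => MR j S k τ (fun P e => if P.Nonempty ∧ nL j P e = 3 then 1 else 0) s /
    TP S k s) (𝓝[>] 1) (𝓝 (kap 3 / 3))

/-! ### The final statement -/

open Pool.Agent.Y715.T.St T2h16.TT.St

/-- the families of characters of exact order `3 ^ k` modulo the primes of `P` -/
def Fam (k : ℕ) (P : Finset Eis) : Type :=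
  {lam : ∀ ρ : P, MulChar (Eis ⧸ Ideal.span {(ρ : Eis)}) ℂ // ∀ ρ, orderOf (lam ρ) = 3 ^ k}

/-- the primes of `P` in some order -/
noncomputable def prm (P : Finset Eis) (i : Fin P.card) : Eis := (P.equivFin.symm i : Eis)

/-- the characters in the same order -/
noncomputable def chr {k : ℕ} {P : Finset Eis} (lam : Fam k P) (i : Fin P.card) :
    MulChar (Eis ⧸ Ideal.span {prm P i}) ℂ := lam.1 (P.equivFin.symm i)

/-- the conclusion for the product of the characters -/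
def Cc (k : ℕ) (P : Finset Eis) (lam : Fam k P) : Prop :=
  ∀ ζ : ℂ, ζ ^ 3 ^ (k - 1) = omega → Concl k P.card (prm P) (chr lam) ζ

/-- the proportion of the families with the conclusion -/
noncomputable def pro (k : ℕ) (P : Finset Eis) : ℝ :=
  (Nat.card {lam : Fam k P // Cc k P lam} : ℝ) / Nat.card (Fam k P)

/-- the norm of the product of the primes -/
noncomputable def NE (P : Finset Eis) : ℝ := ∏ ρ ∈ P, (nrm ρ : ℝ)

/-- CH1: the characters of exact order `3 ^ k` modulo one prime and their exponents -/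
def S_CH1 : Prop := ∀ (k : ℕ) (ρ : Eis), 2 ≤ k → Adm k ρ →
  (∀ e : ZMod 3, e ≠ 0 → Nat.card {lam : MulChar (Eis ⧸ Ideal.span {ρ}) ℂ //
    orderOf lam = 3 ^ k ∧ IsExp k lam e} = 3 ^ (k - 1)) ∧
  (∀ lam : MulChar (Eis ⧸ Ideal.span {ρ}) ℂ, orderOf lam = 3 ^ k →
    ∃! e : ZMod 3, e ≠ 0 ∧ IsExp k lam e) ∧
  Nat.card {lam : MulChar (Eis ⧸ Ideal.span {ρ}) ℂ // orderOf lam = 3 ^ k} = 2 * 3 ^ (k - 1)

open Classical in
/-- CHR: at least the families with connected Laplacian and of class different from `0` modulo `9` have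
the conclusion; each pair of exponents is equally frequent -/
def S_CHR : Prop := ∀ (K : Type) [Field K] [NumberField K] (j : Ei ≃+* 𝓞 K) (S : Finset (Pl K)),
  IsS S → ∀ k : ℕ, 2 ≤ k → ∀ P : Finset (Pl K), Disjoint P S → (∀ q ∈ P, Ok k q) →
  ∑ τ ∈ (Finset.univ.erase (0 : ZMod 3)),
    mean j τ P (fun e => if P.Nonempty ∧ nL j P e = 3 then 1 else 0) ≤ pro k (P.image (pg j))

open Classical in
/-- TRA: sums over the finite sets of admissible primes -/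
def S_TRA : Prop := ∀ (K : Type) [Field K] [NumberField K] (j : Ei ≃+* 𝓞 K) (S : Finset (Pl K)),
  IsS S → ∀ k : ℕ, 1 ≤ k → ∀ (F : Finset Eis → ℝ) (s : ℝ),
  ∑' P : Finset Eis, (if ∀ ρ ∈ P, Adm k ρ then NE P ^ (-s) * F P else 0) =
  ∑' P : Finset (Pl K), (if Disjoint P S ∧ ∀ q ∈ P, Ok k q then
    (NA P : ℝ) ^ (-s) * F (P.image (pg j)) else 0)

open Classical in
/-- FINAL -/
def S_FIN : Prop := ∀ k : ℕ, 2 ≤ k →
  (∀ s : ℝ, 1 < s → Summable fun P : Finset Eis => if ∀ ρ ∈ P, Adm k ρ then NE P ^ (-s) else 0) ∧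
  Tendsto (fun s : ℝ => ∑' P : Finset Eis, if ∀ ρ ∈ P, Adm k ρ then NE P ^ (-s) else 0)
    (𝓝[>] 1) atTop ∧
  0.63 < kap 3 ∧
  ∀ ε : ℝ, 0 < ε → ∀ᶠ s : ℝ in 𝓝[>] 1,
    (2 / 3 * kap 3 - ε) * ∑' P : Finset Eis, (if ∀ ρ ∈ P, Adm k ρ then NE P ^ (-s) else 0) ≤
      ∑' P : Finset Eis, if ∀ ρ ∈ P, Adm k ρ then NE P ^ (-s) * pro k P else 0

end T2h16.PK
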