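import Pool.Agent.T2h16.PK.Stm

set_option autoImplicit false
set_option linter.all false

namespace T2h16.PK.CH1

open Pool.Agent.Y715.T.St T2h16.TT.St T2h16.TT
open Pool.Agent.Y715.T.Rec (Pr cs la nn fld ftp card_FF')
open Pool.Agent.Y692.QS (Ei w nr)

theorem omega_prim : IsPrimitiveRoot omega 3 := by
  rw [Pool.Agent.Y715.T.Pf.omega_eq]
  exact Pool.Agent.Y715.T.Fin.prim_w

theorem omega_inj {a b : ZMod 3} (h : omega ^ a.val = omega ^ b.val) : a = b :=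
  ZMod.val_injective 3 (omega_prim.pow_inj (ZMod.val_lt a) (ZMod.val_lt b) h)

theorem pow_ne_one {k : ℕ} (hk : 2 ≤ k) {G : Type*} [Group G] {g : G} (hl : orderOf g = 3 ^ k) :
    g ^ 3 ^ (k - 1) ≠ 1 := by
  intro h1
  have h2 := orderOf_dvd_of_pow_eq_one h1
  rw [hl] at h2
  have h3 := (Nat.pow_dvd_pow_iff_le_right (by norm_num : 1 < 3)).1 h2
  omega

theorem exp_uniq {k : ℕ} (hk : 2 ≤ k) {ρ : Eis} (h : Pr ρ)
    {lam : MulChar (Eis ⧸ Ideal.span {ρ}) ℂ} (hl : orderOf lam = 3 ^ k) {e e' : ZMod 3}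
    (he : IsExp k lam e) (he' : IsExp k lam e') : e = e' := by
  by_contra hne
  have hs : ∀ x : Eis, ¬ ρ ∣ x → sy ρ x = 0 := by
    intro x hx
    have h1 := omega_inj ((he x hx).symm.trans (he' x hx))
    have h2 : (e - e') * sy ρ x = 0 := by rw [sub_mul, h1, sub_self]
    have h3 : ∀ a b : ZMod 3, a ≠ 0 → a * b = 0 → b = 0 := by decide
    exact h3 _ _ (sub_ne_zero.2 hne) h2
  obtain ⟨x, hx, hx1⟩ := Pool.Agent.Y715.T.Ex.exists_ne h.prime (pow_ne_one hk hl)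
  apply hx1
  rw [he x hx, hs x hx, mul_zero, ZMod.val_zero, pow_zero]

theorem exp_inv {k : ℕ} {ρ : Eis}
    {lam : MulChar (Eis ⧸ Ideal.span {ρ}) ℂ} {e : ZMod 3}
    (he : IsExp k lam e) : IsExp k lam⁻¹ (-e) := by
  intro x hx
  rw [MulChar.inv_apply_eq_inv', inv_pow, he x hx]
  apply inv_eq_of_mul_eq_one_right
  rw [← pow_add]
  have h7 : 3 ∣ (e * sy ρ x).val + (-e * sy ρ x).val := by
    rw [← ZMod.natCast_eq_zero_iff]
    push_cast
    rw [ZMod.natCast_zmod_val, ZMod.natCast_zmod_val]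
    ring
  obtain ⟨d, hd⟩ := h7
  rw [hd, pow_mul, omega_prim.pow_eq_one, one_pow]

theorem card_order {k : ℕ} (hk : 2 ≤ k) {ρ : Eis} (h : Adm k ρ) :
    Nat.card {lam : MulChar (Eis ⧸ Ideal.span {ρ}) ℂ // orderOf lam = 3 ^ k} = 2 * 3 ^ (k - 1) := by
  classical
  letI := fld h.1
  letI := ftp h.1
  obtain ⟨E⟩ := MulChar.mulEquiv_units (Eis ⧸ Ideal.span {ρ}) ℂ
  have h1 : Nat.card {lam : MulChar (Eis ⧸ Ideal.span {ρ}) ℂ // orderOf lam = 3 ^ k} =
      Nat.card {u : (Eis ⧸ Ideal.span {ρ})ˣ // orderOf u = 3 ^ k} := by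
    apply Nat.card_congr
    refine E.toEquiv.subtypeEquiv ?_
    intro a
    show orderOf a = 3 ^ k ↔ orderOf (E a) = 3 ^ k
    rw [MulEquiv.orderOf_eq]
  rw [h1, Nat.card_eq_fintype_card, Fintype.card_subtype]
  have hcard : Fintype.card (Eis ⧸ Ideal.span {ρ})ˣ = (nr ρ).natAbs - 1 := by
    rw [Fintype.card_units]
    exact congrArg (· - 1) (card_FF' h.1)
  have hdvd : 3 ^ k ∣ Fintype.card (Eis ⧸ Ideal.span {ρ})ˣ := by
    rw [hcard]
    have h2 := h.2.2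
    have h3 : nrm ρ = nr ρ := rfl
    rw [h3] at h2
    have h4 : 0 ≤ nr ρ := Pool.Agent.Y692.QS.nr_nonneg ρ
    have h5 : nr ρ ≠ 0 := by
      rw [Ne, Pool.Agent.Y692.QS.nr_zero_iff]
      exact h.1.ne_zero
    have h6 : ((((nr ρ).natAbs - 1 : ℕ)) : ℤ) = nr ρ - 1 := by omega
    have h7 : ((3 ^ (k + 1) : ℕ) : ℤ) ∣ (((nr ρ).natAbs - 1 : ℕ) : ℤ) := by
      rw [h6]
      exact_mod_cast h2
    exact dvd_trans (pow_dvd_pow 3 (by omega)) (Int.natCast_dvd_natCast.1 h7)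
  rw [IsCyclic.card_orderOf_eq_totient hdvd, Nat.totient_prime_pow Nat.prime_three (by omega)]
  ring

theorem t_CH1 : S_CH1 := by
  intro k ρ hk h
  have hp : Pr ρ := adm_pr hk h
  have hc := card_order hk h
  have hfin : Finite {lam : MulChar (Eis ⧸ Ideal.span {ρ}) ℂ // orderOf lam = 3 ^ k} :=
    Nat.finite_of_card_ne_zero (by rw [hc]; positivity)
  have hfin' : ∀ e : ZMod 3, Finite {lam : MulChar (Eis ⧸ Ideal.span {ρ}) ℂ //
      orderOf lam = 3 ^ k ∧ IsExp k lam e} := fun e =>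
    Finite.of_injective (fun l : {lam : MulChar (Eis ⧸ Ideal.span {ρ}) ℂ //
      orderOf lam = 3 ^ k ∧ IsExp k lam e} =>
      (⟨l.1, l.2.1⟩ : {lam : MulChar (Eis ⧸ Ideal.span {ρ}) ℂ // orderOf lam = 3 ^ k}))
      (fun a b hab => by
        have h1 : a.1 = b.1 := Subtype.mk.inj hab
        exact Subtype.ext h1)
  -- the two classes have the same number of elements
  have hle : ∀ e : ZMod 3, Nat.card {lam : MulChar (Eis ⧸ Ideal.span {ρ}) ℂ //
      orderOf lam = 3 ^ k ∧ IsExp k lam e} ≤ Nat.card {lam : MulChar (Eis ⧸ Ideal.span {ρ}) ℂ //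
      orderOf lam = 3 ^ k ∧ IsExp k lam (-e)} := by
    intro e
    haveI := hfin' (-e)
    refine Nat.card_le_card_of_injective (fun l : {lam : MulChar (Eis ⧸ Ideal.span {ρ}) ℂ //
      orderOf lam = 3 ^ k ∧ IsExp k lam e} => (⟨l.1⁻¹, by rw [orderOf_inv]; exact l.2.1,
        exp_inv l.2.2⟩ : {lam : MulChar (Eis ⧸ Ideal.span {ρ}) ℂ //
        orderOf lam = 3 ^ k ∧ IsExp k lam (-e)})) ?_
    intro a b hab
    have := congrArg Subtype.val hab
    exact Subtype.ext (inv_injective this)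
  have heq : Nat.card {lam : MulChar (Eis ⧸ Ideal.span {ρ}) ℂ //
      orderOf lam = 3 ^ k ∧ IsExp k lam 1} = Nat.card {lam : MulChar (Eis ⧸ Ideal.span {ρ}) ℂ //
      orderOf lam = 3 ^ k ∧ IsExp k lam 2} := by
    have h1 := hle 1
    have h2 := hle 2
    have e1 : (-1 : ZMod 3) = 2 := by decide
    have e2 : (-2 : ZMod 3) = 1 := by decide
    rw [e1] at h1
    rw [e2] at h2
    exact le_antisymm h1 h2
  -- the sum
  have hsum : Nat.card {lam : MulChar (Eis ⧸ Ideal.span {ρ}) ℂ // orderOf lam = 3 ^ k} =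
      Nat.card {lam : MulChar (Eis ⧸ Ideal.span {ρ}) ℂ //
      orderOf lam = 3 ^ k ∧ IsExp k lam 1} + Nat.card {lam : MulChar (Eis ⧸ Ideal.span {ρ}) ℂ //
      orderOf lam = 3 ^ k ∧ IsExp k lam 2} := by
    classical
    haveI := hfin' 1
    haveI := hfin' 2
    rw [← Nat.card_sum]
    symm
    apply Nat.card_congr
    refine Equiv.ofBijective (fun x : _ ⊕ _ => match x with
      | Sum.inl l => (⟨l.1, l.2.1⟩ : {lam : MulChar (Eis ⧸ Ideal.span {ρ}) ℂ // orderOf lam = 3 ^ k})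
      | Sum.inr l => ⟨l.1, l.2.1⟩) ⟨?_, ?_⟩
    · rintro (a | a) (b | b) hab
      · have h1 : a.1 = b.1 := Subtype.mk.inj hab
        exact congrArg Sum.inl (Subtype.ext h1)
      · exfalso
        have h1 : a.1 = b.1 := Subtype.mk.inj hab
        have h2 := a.2.2
        rw [h1] at h2
        have := exp_uniq hk hp b.2.1 h2 b.2.2
        exact absurd this (by decide)
      · exfalso
        have h1 : a.1 = b.1 := Subtype.mk.inj hab
        have h2 := a.2.2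
        rw [h1] at h2
        have := exp_uniq hk hp b.2.1 h2 b.2.2
        exact absurd this (by decide)
      · have h1 : a.1 = b.1 := Subtype.mk.inj hab
        exact congrArg Sum.inr (Subtype.ext h1)
    · rintro ⟨l, hl⟩
      obtain ⟨e, he0, he⟩ := exists_exp hk hp hl
      have h3 : e = 1 ∨ e = 2 := (by decide : ∀ e : ZMod 3, e ≠ 0 → e = 1 ∨ e = 2) e he0
      rcases h3 with rfl | rfl
      · exact ⟨Sum.inl ⟨l, hl, he⟩, rfl⟩
      · exact ⟨Sum.inr ⟨l, hl, he⟩, rfl⟩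
  refine ⟨?_, ?_, hc⟩
  · intro e he
    have h3 : e = 1 ∨ e = 2 := (by decide : ∀ e : ZMod 3, e ≠ 0 → e = 1 ∨ e = 2) e he
    rcases h3 with rfl | rfl <;> omega
  · intro lam hl
    obtain ⟨e, he0, he⟩ := exists_exp hk hp hl
    exact ⟨e, ⟨he0, he⟩, fun e' he' => exp_uniq hk hp hl he'.2 he⟩

end T2h16.PK.CH1
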