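import Pool.Agent.T2h16.PK.Stm
import Pool.Agent.T3h73.SD.T_DIST

/-!
# Task DISG of project PK (board t16p_tasks of helper16), by helper94
-/

set_option autoImplicit false

open Filter Topology Polynomial

namespace T2h16.PK.DISG

open Pool.Agent.T3h73.SD (kap S_KAP)
open Pool.Agent.T3h73.SD.DIST (mm Lf Lf_monomial BB Lf_BB BB_eval BB_le one_lt_pow')

lemma BB_ge {ℓ : ℕ} (hℓ : 2 ≤ ℓ) {J : ℕ} (hJ : Even J) (r : ℕ) :
    (if r = 0 then 1 else 0) ≤ (BB ℓ J).eval ((ℓ : ℝ) ^ r) := by
  rw [BB_eval hℓ]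
  by_cases hr : r = 0
  · rw [if_pos hr, hr, pow_zero]
    refine (Finset.prod_eq_one fun i _ => ?_).ge
    exact div_self (sub_pos.2 (one_lt_pow' hℓ i)).ne'
  · rw [if_neg hr]
    by_cases hrJ : r ≤ J
    · refine (Finset.prod_eq_zero (i := r - 1) (by rw [Finset.mem_range]; omega) ?_).ge
      rw [show r - 1 + 1 = r by omega, sub_self, zero_div]
    · have h2 : ∏ i ∈ Finset.range J, ((ℓ : ℝ) ^ (i + 1) - (ℓ : ℝ) ^ r) / ((ℓ : ℝ) ^ (i + 1) - 1) =
          (-1) ^ J * ∏ i ∈ Finset.range J,
            ((ℓ : ℝ) ^ r - (ℓ : ℝ) ^ (i + 1)) / ((ℓ : ℝ) ^ (i + 1) - 1) := by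
        rw [← Finset.card_range J, ← Finset.prod_const, Finset.card_range,
          ← Finset.prod_mul_distrib]
        exact Finset.prod_congr rfl fun i _ => by ring
      rw [h2, hJ.neg_one_pow, one_mul]
      refine Finset.prod_nonneg fun i hi => ?_
      rw [Finset.mem_range] at hi
      refine div_nonneg (sub_nonneg.2 ?_) (sub_nonneg.2 (one_lt_pow' hℓ i).le)
      exact pow_le_pow_right₀ (by exact_mod_cast (by omega : 1 ≤ ℓ)) (by omega)

open Classical in
theorem t_DISG (hK : S_KAP) : S_DISG := by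
  intro I wt d T C hC hwt hT hsum hmom
  have hsumf : ∀ (f : ℝ[X]) (s : ℝ), 1 < s → s ≤ 2 →
      Summable (fun i => wt s i * f.eval ((3 : ℝ) ^ d i)) := by
    intro f s hs1 hs2
    induction f using Polynomial.induction_on' with
    | add p q hp hq =>
      refine (hp.add hq).congr fun P => ?_
      rw [eval_add]
      ring
    | monomial k a =>
      refine ((hsum k s hs1 hs2).mul_left a).congr fun P => ?_
      rw [eval_monomial]
      ring
  have hev : ∀ᶠ s : ℝ in 𝓝[>] 1, 1 < s ∧ s ≤ 2 := by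
    have h1 : Set.Ioc (1 : ℝ) 2 ∈ 𝓝[>] (1 : ℝ) := Ioc_mem_nhdsGT (by norm_num)
    exact Filter.mem_of_superset h1 fun s hs => hs
  have hlim : ∀ f : ℝ[X], Tendsto (fun s => (∑' i, wt s i * f.eval ((3 : ℝ) ^ d i)) / T s) (𝓝[>] 1)
      (𝓝 (C * Lf 3 f)) := by
    intro f
    induction f using Polynomial.induction_on' with
    | add p q hp hq =>
      rw [map_add, mul_add]
      refine (hp.add hq).congr' ?_
      filter_upwards [hev] with s hs
      rw [← add_div]
      congr 1
      rw [← (hsumf p s hs.1 hs.2).tsum_add (hsumf q s hs.1 hs.2)]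
      refine tsum_congr fun P => ?_
      rw [eval_add]
      ring
    | monomial k a =>
      rw [Lf_monomial]
      have h1 := (hmom k).const_mul a
      have h2 : a * (C * ∏ i ∈ Finset.range k, (1 + (3 : ℝ) ^ i)) = C * (mm 3 k * a) := by
        unfold mm
        push_cast
        ring
      rw [h2] at h1
      refine h1.congr fun s => ?_
      rw [← mul_div_assoc]
      congr 1
      rw [← tsum_mul_left]
      refine tsum_congr fun P => ?_
      rw [eval_monomial]
      ring
  have hind : ∀ s : ℝ, 1 < s → s ≤ 2 → Summable (fun i => if d i = 0 then wt s i else 0) := by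
    intro s hs1 hs2
    refine Summable.of_nonneg_of_le (fun i => ?_) (fun i => ?_) (hsum 0 s hs1 hs2)
    · split_ifs
      · exact hwt s i hs1 hs2
      · exact le_rfl
    · rw [pow_zero, mul_one]
      split_ifs
      · exact le_rfl
      · exact hwt s i hs1 hs2
  obtain ⟨-, -, hK3⟩ := hK 3 (by norm_num)
  have hK' : Tendsto (fun J : ℕ => C * Lf 3 (BB 3 J)) atTop (𝓝 (C * kap 3)) := by
    refine (hK3.const_mul C).congr fun J => ?_
    rw [Lf_BB]
  rw [tendsto_order]
  constructor
  · intro a ha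
    obtain ⟨N, hN⟩ := Filter.eventually_atTop.1 (hK'.eventually (lt_mem_nhds ha))
    have hJo : Odd (2 * N + 1) := ⟨N, rfl⟩
    have h1 := hN (2 * N + 1) (by omega)
    filter_upwards [(hlim (BB 3 (2 * N + 1))).eventually (lt_mem_nhds h1), hev] with s h2 hs
    refine h2.trans_le ?_
    refine div_le_div_of_nonneg_right ?_ (hT s hs.1 hs.2).le
    refine (hsumf _ s hs.1 hs.2).tsum_le_tsum (fun i => ?_) (hind s hs.1 hs.2)
    have h3 := BB_le (ℓ := 3) (by norm_num) hJo (d i)
    push_cast at h3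
    refine (mul_le_mul_of_nonneg_left h3 (hwt s i hs.1 hs.2)).trans (le_of_eq ?_)
    by_cases h0 : d i = 0
    · rw [if_pos h0, if_pos h0, mul_one]
    · rw [if_neg h0, if_neg h0, mul_zero]
  · intro a ha
    obtain ⟨N, hN⟩ := Filter.eventually_atTop.1 (hK'.eventually (gt_mem_nhds ha))
    have hJe : Even (2 * N) := even_two_mul N
    have h1 := hN (2 * N) (by omega)
    filter_upwards [(hlim (BB 3 (2 * N))).eventually (gt_mem_nhds h1), hev] with s h2 hs
    refine lt_of_le_of_lt ?_ h2
    refine div_le_div_of_nonneg_right ?_ (hT s hs.1 hs.2).le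
    refine (hind s hs.1 hs.2).tsum_le_tsum (fun i => ?_) (hsumf _ s hs.1 hs.2)
    have h3 := BB_ge (ℓ := 3) (by norm_num) hJe (d i)
    push_cast at h3
    refine le_trans (le_of_eq ?_) (mul_le_mul_of_nonneg_left h3 (hwt s i hs.1 hs.2))
    by_cases h0 : d i = 0
    · rw [if_pos h0, if_pos h0, mul_one]
    · rw [if_neg h0, if_neg h0, mul_zero]

end T2h16.PK.DISG
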