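import Pool.Agent.T2h16.PK.Stm

/-!
# Task DISK (helper49): the proportion of the nonempty sets with minimal kernel
-/

set_option autoImplicit false
set_option linter.all false

open NumberField IsDedekindDomain Filter Topology

namespace T2h16.PK.DISK

open Pool.Agent.T3h73.SL (Pl)
open Pool.Agent.T3h73.SD (ee NA gA T0 SymSys Cl Rc kap S_BL S_LU S_UNL S_CNTU S_KAP S_T0L)
open Pool.Agent.Y715.T.Rec (cs la)
open Pool.Agent.Y715.T.RecG (Pq)
open Pool.Agent.Y692.QS (Ei w nr)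

section
variable {K : Type} [Field K] [NumberField K] (j : Ei ≃+* 𝓞 K) (S : Finset (Pl K)) (k : ℕ)
  (τ : ZMod 3)

/-- the conditions on `P` -/
def OkP (P : Finset (Pl K)) : Prop := Disjoint P S ∧ ∀ q ∈ P, Ok k q

open Classical in
/-- the weights -/
noncomputable def wt (s : ℝ) (i : Σ P : Finset (Pl K), (P → Fin 2)) : ℝ :=
  if i.1.Nonempty ∧ OkP S k i.1 ∧ ∑ q : i.1, ex (i.2 q) * tt (pg j q) = τ then
    (NA i.1 : ℝ) ^ (-s) * ((2 : ℝ) ^ i.1.card)⁻¹ else 0

/-- the exponents -/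
noncomputable def dd (i : Σ P : Finset (Pl K), (P → Fin 2)) : ℕ := Nat.log 3 (nL j i.1 i.2) - 1

theorem wt_nonneg (s : ℝ) (i : Σ P : Finset (Pl K), (P → Fin 2)) : 0 ≤ wt j S k τ s i := by
  unfold wt
  split_ifs
  · positivity
  · exact le_rfl

theorem wt_le (s : ℝ) (i : Σ P : Finset (Pl K), (P → Fin 2)) :
    wt j S k τ s i ≤ (NA i.1 : ℝ) ^ (-s) * ((2 : ℝ) ^ i.1.card)⁻¹ := by
  unfold wt
  split_ifs
  · exact le_rfl
  · positivity

open Classical in
/-- the inner sum -/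
theorem inner_sum (s : ℝ) (G : ∀ P : Finset (Pl K), (P → Fin 2) → ℝ) (P : Finset (Pl K)) :
    ∑' e : P → Fin 2, wt j S k τ s ⟨P, e⟩ * G P e =
    if P.Nonempty ∧ OkP S k P then (NA P : ℝ) ^ (-s) * mean j τ P (G P) else 0 := by
  rw [tsum_fintype]
  by_cases hP : P.Nonempty ∧ OkP S k P
  · rw [if_pos hP]
    unfold mean
    rw [← mul_assoc, Finset.mul_sum]
    refine Finset.sum_congr rfl fun e _ => ?_
    unfold wt
    by_cases he : ∑ q : P, ex (e q) * tt (pg j q) = τ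
    · rw [if_pos ⟨hP.1, hP.2, he⟩, if_pos he]
    · rw [if_neg (fun h => he h.2.2), if_neg he, zero_mul, mul_zero]
  · rw [if_neg hP]
    refine Finset.sum_eq_zero fun e _ => ?_
    unfold wt
    rw [if_neg (fun h => hP ⟨h.1, h.2.1⟩), zero_mul]

theorem inner_le (s : ℝ) (r : ℕ) (G : ∀ P : Finset (Pl K), (P → Fin 2) → ℝ)
    (h1 : ∀ P e, G P e ≤ (3 : ℝ) ^ (r * P.card)) (P : Finset (Pl K)) :
    ∑' e : P → Fin 2, wt j S k τ s ⟨P, e⟩ * G P e ≤
      (NA P : ℝ) ^ (-s) * (3 : ℝ) ^ (r * P.card) := by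
  classical
  rw [tsum_fintype]
  calc ∑ e : P → Fin 2, wt j S k τ s ⟨P, e⟩ * G P e
      ≤ ∑ e : P → Fin 2, (NA P : ℝ) ^ (-s) * ((2 : ℝ) ^ P.card)⁻¹ * (3 : ℝ) ^ (r * P.card) := by
        refine Finset.sum_le_sum fun e _ => ?_
        have h2 := wt_le j S k τ s ⟨P, e⟩
        have h3 := wt_nonneg j S k τ s ⟨P, e⟩
        calc _ ≤ wt j S k τ s ⟨P, e⟩ * (3 : ℝ) ^ (r * P.card) :=
              mul_le_mul_of_nonneg_left (h1 P e) h3
          _ ≤ _ := mul_le_mul_of_nonneg_right h2 (by positivity)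
    _ = _ := by
        rw [Finset.sum_const, Finset.card_univ, Fintype.card_fun, Fintype.card_fin,
          Fintype.card_coe, nsmul_eq_mul]
        push_cast
        field_simp

theorem summ (s : ℝ) (r : ℕ)
    (hs : Summable fun P : Finset (Pl K) => (NA P : ℝ) ^ (-s) * (3 : ℝ) ^ (r * P.card))
    (G : ∀ P : Finset (Pl K), (P → Fin 2) → ℝ)
    (h0 : ∀ P e, 0 ≤ G P e) (h1 : ∀ P e, G P e ≤ (3 : ℝ) ^ (r * P.card)) :
    Summable fun i : Σ P : Finset (Pl K), (P → Fin 2) => wt j S k τ s i * G i.1 i.2 := by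
  classical
  rw [summable_sigma_of_nonneg (fun i => mul_nonneg (wt_nonneg j S k τ s i) (h0 _ _))]
  refine ⟨fun P => ?_, ?_⟩
  · exact (hasSum_fintype _).summable
  · refine Summable.of_nonneg_of_le (fun P => ?_) (fun P => ?_) hs
    · exact tsum_nonneg fun e => mul_nonneg (wt_nonneg j S k τ s _) (h0 _ _)
    · exact inner_le j S k τ s r G h1 P

open Classical in
theorem sigma_sum (s : ℝ) (r : ℕ)
    (hs : Summable fun P : Finset (Pl K) => (NA P : ℝ) ^ (-s) * (3 : ℝ) ^ (r * P.card))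
    (G : ∀ P : Finset (Pl K), (P → Fin 2) → ℝ)
    (h0 : ∀ P e, 0 ≤ G P e) (h1 : ∀ P e, G P e ≤ (3 : ℝ) ^ (r * P.card)) :
    ∑' i : Σ P : Finset (Pl K), (P → Fin 2), wt j S k τ s i * G i.1 i.2 =
    ∑' P : Finset (Pl K), if P.Nonempty ∧ OkP S k P then
      (NA P : ℝ) ^ (-s) * mean j τ P (G P) else 0 := by
  rw [Summable.tsum_sigma' (fun P => (hasSum_fintype _).summable) (summ j S k τ s r hs G h0 h1)]
  exact tsum_congr fun P => inner_sum j S k τ s G P

open Classical in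
theorem summ_P (s : ℝ) (r : ℕ)
    (hs : Summable fun P : Finset (Pl K) => (NA P : ℝ) ^ (-s) * (3 : ℝ) ^ (r * P.card))
    (G : ∀ P : Finset (Pl K), (P → Fin 2) → ℝ)
    (h0 : ∀ P e, 0 ≤ G P e) (h1 : ∀ P e, G P e ≤ (3 : ℝ) ^ (r * P.card)) :
    Summable fun P : Finset (Pl K) => if P.Nonempty ∧ OkP S k P then
      (NA P : ℝ) ^ (-s) * mean j τ P (G P) else 0 := by
  have h := ((summable_sigma_of_nonneg (fun i => mul_nonneg (wt_nonneg j S k τ s i)
    (h0 _ _))).1 (summ j S k τ s r hs G h0 h1)).2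
  refine h.congr fun P => ?_
  exact inner_sum j S k τ s G P

open Classical in
/-- the empty set -/
theorem MR_split (s : ℝ) (r : ℕ)
    (hs : Summable fun P : Finset (Pl K) => (NA P : ℝ) ^ (-s) * (3 : ℝ) ^ (r * P.card))
    (G : ∀ P : Finset (Pl K), (P → Fin 2) → ℝ)
    (h0 : ∀ P e, 0 ≤ G P e) (h1 : ∀ P e, G P e ≤ (3 : ℝ) ^ (r * P.card)) :
    MR j S k τ G s = mean j τ ∅ (G ∅) + ∑' P : Finset (Pl K), if P.Nonempty ∧ OkP S k P then
      (NA P : ℝ) ^ (-s) * mean j τ P (G P) else 0 := by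
  have hsum := summ_P j S k τ s r hs G h0 h1
  have hz : ∀ P : Finset (Pl K), (if Disjoint P S ∧ ∀ q ∈ P, Ok k q then
      (NA P : ℝ) ^ (-s) * mean j τ P (G P) else 0) =
      (if P = ∅ then mean j τ ∅ (G ∅) else 0) + (if P.Nonempty ∧ OkP S k P then
      (NA P : ℝ) ^ (-s) * mean j τ P (G P) else 0) := by
    intro P
    by_cases hP : P = ∅
    · subst hP
      have hA : Disjoint (∅ : Finset (Pl K)) S ∧ ∀ q ∈ (∅ : Finset (Pl K)), Ok k q := by simp
      have hB : ¬ ((∅ : Finset (Pl K)).Nonempty ∧ OkP S k ∅) :=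
        fun h => Finset.not_nonempty_empty h.1
      rw [if_pos hA, if_neg hB, if_pos rfl, add_zero]
      simp [NA]
    · rw [if_neg hP, zero_add]
      have hP' := Finset.nonempty_iff_ne_empty.2 hP
      by_cases h2 : Disjoint P S ∧ ∀ q ∈ P, Ok k q
      · rw [if_pos h2, if_pos ⟨hP', h2⟩]
      · rw [if_neg h2, if_neg (fun h => h2 h.2)]
  have hsing : HasSum (fun P : Finset (Pl K) => if P = ∅ then mean j τ ∅ (G ∅) else 0)
      (mean j τ ∅ (G ∅)) := hasSum_ite_eq ∅ _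
  unfold MR
  rw [tsum_congr hz, Summable.tsum_add hsing.summable hsum, hsing.tsum_eq]

end

end T2h16.PK.DISK

namespace T2h16.PK

open Pool.Agent.T3h73.SL (Pl)
open Pool.Agent.T3h73.SD (ee NA gA T0 SymSys Cl Rc kap S_BL S_LU S_UNL S_CNTU S_KAP S_T0L)
open Pool.Agent.Y692.QS (Ei w nr)

open Classical in
theorem t_DISK (hM : S_MOMK) (hD : S_DISG) (hP : S_TPN) : S_DISK := by
  intro K _ _ j S hS k τ hk
  obtain ⟨h1, h2, h3⟩ := hP K j S hS k hk
  have hnL : ∀ (P : Finset (Pl K)) (e : P → Fin 2), nL j P e = 3 ^ (Nat.log 3 (nL j P e)) ∧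
      Nat.log 3 (nL j P e) ≤ P.card ∧ (P.Nonempty → 1 ≤ Nat.log 3 (nL j P e)) := by
    intro P e
    obtain ⟨d, hd, h4, h5⟩ := h3 P e
    have h6 : Nat.log 3 (nL j P e) = d := by
      rw [hd]
      exact Nat.log_pow (by norm_num) d
    rw [h6]
    exact ⟨hd, h4, h5⟩
  have hd3 : ∀ (P : Finset (Pl K)) (e : P → Fin 2), P.Nonempty →
      (3 : ℝ) ^ DISK.dd j ⟨P, e⟩ = (nL j P e : ℝ) / 3 := by
    intro P e hPe
    obtain ⟨h4, h5, h6⟩ := hnL P e
    have h7 := h6 hPe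
    have h8 : (nL j P e : ℝ) = (3 : ℝ) ^ (Nat.log 3 (nL j P e)) := by exact_mod_cast h4
    rw [h8]
    obtain ⟨m, hm⟩ : ∃ m, Nat.log 3 (nL j P e) = m + 1 := ⟨Nat.log 3 (nL j P e) - 1, by omega⟩
    have h9 : DISK.dd j ⟨P, e⟩ = m := by
      show Nat.log 3 (nL j P e) - 1 = m
      omega
    rw [h9, hm, pow_succ]
    field_simp
  have hdle : ∀ (P : Finset (Pl K)) (e : P → Fin 2), DISK.dd j ⟨P, e⟩ ≤ P.card := by
    intro P e
    have := (hnL P e).2.1
    show Nat.log 3 (nL j P e) - 1 ≤ P.card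
    omega
  have hdr : ∀ (r : ℕ) (P : Finset (Pl K)) (e : P → Fin 2),
      ((3 : ℝ) ^ DISK.dd j ⟨P, e⟩) ^ r ≤ (3 : ℝ) ^ (r * P.card) := by
    intro r P e
    rw [← pow_mul, mul_comm r]
    exact pow_le_pow_right₀ (by norm_num) (Nat.mul_le_mul_right r (hdle P e))
  have hnr : ∀ (r : ℕ) (P : Finset (Pl K)) (e : P → Fin 2),
      (nL j P e : ℝ) ^ r ≤ (3 : ℝ) ^ (r * P.card) := by
    intro r P e
    have h4 : (nL j P e : ℝ) = (3 : ℝ) ^ (Nat.log 3 (nL j P e)) := by exact_mod_cast (hnL P e).1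
    rw [h4, ← pow_mul, mul_comm r]
    exact pow_le_pow_right₀ (by norm_num) (Nat.mul_le_mul_right r (hnL P e).2.1)
  have key := hD (Σ P : Finset (Pl K), (P → Fin 2)) (DISK.wt j S k τ) (DISK.dd j)
    (fun s => TP S k s) (1 / 3) (by norm_num) (fun s i _ _ => DISK.wt_nonneg j S k τ s i)
    (fun s hs _ => lt_of_lt_of_le one_pos (h1 s hs).2.1)
    (fun r s hs _ => DISK.summ j S k τ s r ((h1 s hs).2.2.2 r)
      (fun P e => ((3 : ℝ) ^ DISK.dd j ⟨P, e⟩) ^ r) (fun P e => by positivity) (hdr r)) ?_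
  · have hlim : (1 / 3 * kap 3 : ℝ) = kap 3 / 3 := by ring
    rw [hlim] at key
    refine key.congr' ?_
    filter_upwards [self_mem_nhdsWithin] with s hs
    have hs1 : 1 < s := hs
    congr 1
    have hsum0 := (h1 s hs1).2.2.2 0
    have e1 := DISK.sigma_sum j S k τ s 0 hsum0
      (fun P e => if DISK.dd j ⟨P, e⟩ = 0 then 1 else 0)
      (fun P e => by split_ifs <;> norm_num)
      (fun P e => by rw [zero_mul, pow_zero]; split_ifs <;> norm_num)
    have e2 := DISK.MR_split j S k τ s 0 hsum0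
      (fun P e => if P.Nonempty ∧ nL j P e = 3 then 1 else 0)
      (fun P e => by split_ifs <;> norm_num)
      (fun P e => by rw [zero_mul, pow_zero]; split_ifs <;> norm_num)
    have e3 : mean j τ (∅ : Finset (Pl K)) (fun e => if (∅ : Finset (Pl K)).Nonempty ∧
        nL j ∅ e = 3 then 1 else 0) = 0 := by
      unfold mean
      simp
    rw [e2, e3, zero_add]
    have e4 : (∑' i : Σ P : Finset (Pl K), (P → Fin 2),
        if DISK.dd j i = 0 then DISK.wt j S k τ s i else 0) =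
        ∑' i : Σ P : Finset (Pl K), (P → Fin 2), DISK.wt j S k τ s i *
          (if DISK.dd j ⟨i.1, i.2⟩ = 0 then 1 else 0) := by
      refine tsum_congr fun i => ?_
      by_cases h : DISK.dd j i = 0
      · rw [if_pos h, if_pos h, mul_one]
      · rw [if_neg h, if_neg h, mul_zero]
    rw [e4, e1]
    refine tsum_congr fun P => ?_
    by_cases h : P.Nonempty ∧ DISK.OkP S k P
    · rw [if_pos h, if_pos h]
      congr 2
      funext e
      have h7 : DISK.dd j ⟨P, e⟩ = 0 ↔ (P.Nonempty ∧ nL j P e = 3) := by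
        obtain ⟨h4, h5, h6⟩ := hnL P e
        have h8 := h6 h.1
        show Nat.log 3 (nL j P e) - 1 = 0 ↔ _
        constructor
        · intro h9
          have : Nat.log 3 (nL j P e) = 1 := by omega
          rw [this] at h4
          exact ⟨h.1, by rw [h4]; norm_num⟩
        · rintro ⟨-, h9⟩
          rw [h9]
          norm_num
      by_cases h8 : DISK.dd j ⟨P, e⟩ = 0
      · rw [if_pos h8, if_pos (h7.1 h8)]
      · rw [if_neg h8, if_neg (fun h9 => h8 (h7.2 h9))]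
    · rw [if_neg h, if_neg h]
  · intro r
    have hm := hM K j S hS k r τ hk
    -- the constant
    set c : ℝ := mean j τ (∅ : Finset (Pl K)) (fun e => (nL j ∅ e : ℝ) ^ r) with hc
    have hT : Tendsto (fun s : ℝ => c / TP S k s) (𝓝[>] 1) (𝓝 0) := h2.const_div_atTop c
    have h4 : Tendsto (fun s : ℝ => (MR j S k τ (fun P e => (nL j P e : ℝ) ^ r) s / TP S k s -
        c / TP S k s) / 3 ^ r) (𝓝[>] 1)
        (𝓝 ((1 / 3 * (3 ^ r * ∏ i ∈ Finset.range r, (1 + (3 : ℝ) ^ i)) - 0) / 3 ^ r)) :=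
      (hm.sub hT).div_const _
    have h5 : ((1 / 3 * (3 ^ r * ∏ i ∈ Finset.range r, (1 + (3 : ℝ) ^ i)) - 0) / 3 ^ r : ℝ) =
        1 / 3 * ∏ i ∈ Finset.range r, (1 + (3 : ℝ) ^ i) := by
      have : (3 : ℝ) ^ r ≠ 0 := by positivity
      field_simp
      ring
    rw [h5] at h4
    refine h4.congr' ?_
    filter_upwards [self_mem_nhdsWithin] with s hs
    have hs1 : 1 < s := hs
    have hsum := (h1 s hs1).2.2.2 r
    have e1 := DISK.sigma_sum j S k τ s r hsum
      (fun P e => ((3 : ℝ) ^ DISK.dd j ⟨P, e⟩) ^ r) (fun P e => by positivity) (hdr r)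
    have e2 := DISK.MR_split j S k τ s r hsum
      (fun P e => (nL j P e : ℝ) ^ r) (fun P e => by positivity) (hnr r)
    have e3 : (∑' i : Σ P : Finset (Pl K), (P → Fin 2), DISK.wt j S k τ s i *
        ((3 : ℝ) ^ DISK.dd j i) ^ r) = (∑' P : Finset (Pl K), if P.Nonempty ∧ DISK.OkP S k P then
      (NA P : ℝ) ^ (-s) * mean j τ P (fun e => (nL j P e : ℝ) ^ r) else 0) / 3 ^ r := by
      have e4 : (∑' i : Σ P : Finset (Pl K), (P → Fin 2), DISK.wt j S k τ s i *
        ((3 : ℝ) ^ DISK.dd j i) ^ r) = ∑' i : Σ P : Finset (Pl K), (P → Fin 2),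
          DISK.wt j S k τ s i * ((3 : ℝ) ^ DISK.dd j ⟨i.1, i.2⟩) ^ r := rfl
      rw [e4, e1, ← tsum_div_const]
      refine tsum_congr fun P => ?_
      by_cases h : P.Nonempty ∧ DISK.OkP S k P
      · rw [if_pos h, if_pos h, mul_div_assoc]
        congr 1
        unfold mean
        rw [mul_div_assoc, Finset.sum_div]
        congr 1
        refine Finset.sum_congr rfl fun e _ => ?_
        dsimp only
        rw [hd3 P e h.1, div_pow]
        split_ifs
        · rfl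
        · rw [zero_div]
      · rw [if_neg h, if_neg h, zero_div]
    rw [e3, e2, ← hc]
    have hTP : TP S k s ≠ 0 := (lt_of_lt_of_le one_pos (h1 s hs1).2.1).ne'
    have h3r : (3 : ℝ) ^ r ≠ 0 := by positivity
    field_simp
    ring

end T2h16.PK
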