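import Pool.Agent.T2h16.PK.Stm

set_option autoImplicit false
set_option linter.all false

open NumberField IsDedekindDomain Filter Topology

namespace T2h16.PK.EDIR

open Pool.Agent.T3h73.SL (Pl)
open Pool.Agent.Y773.G (IsModChar)
open Pool.Agent.Y692.QS (Ei w nr)

/-- the character of the norm -/
noncomputable def psi {K : Type} [Field K] [NumberField K] (k : ℕ)
    (th : DirichletCharacter ℂ (3 ^ (k + 1))) : Ideal (𝓞 K) →*₀ ℂ where
  toFun a := th ((Ideal.absNorm a : ℕ) : ZMod (3 ^ (k + 1)))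
  map_zero' := by
    rw [map_zero, Nat.cast_zero]
    apply DirichletCharacter.map_zero'
    have : 1 < 3 ^ (k + 1) := Nat.one_lt_pow (by omega) (by norm_num)
    omega
  map_one' := by rw [map_one, Nat.cast_one, map_one]
  map_mul' a b := by rw [map_mul, Nat.cast_mul, map_mul]

theorem nr_cong (k : ℕ) (α β : Ei) (h : α = 1 + ((3 : ℤ) ^ (k + 1) : ℤ) * β) :
    ((3 : ℤ) ^ (k + 1)) ∣ nr α - 1 := by
  have h1 : α.re = 1 + 3 ^ (k + 1) * β.re := by
    rw [h, QuadraticAlgebra.re_add, Pool.Agent.Y692.QS.mul_re, QuadraticAlgebra.re_intCast,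
      QuadraticAlgebra.im_intCast]
    have e : (1 : Ei).re = 1 := rfl
    rw [e]
    simp
  have h2 : α.im = 3 ^ (k + 1) * β.im := by
    rw [h, QuadraticAlgebra.im_add, Pool.Agent.Y692.QS.mul_im, QuadraticAlgebra.re_intCast,
      QuadraticAlgebra.im_intCast]
    have e : (1 : Ei).im = 0 := rfl
    rw [e]
    simp
  unfold Pool.Agent.Y692.QS.nr
  rw [h1, h2]
  refine ⟨2 * β.re + 3 ^ (k + 1) * β.re ^ 2 - (1 + 3 ^ (k + 1) * β.re) * β.im +
    3 ^ (k + 1) * β.im ^ 2, ?_⟩
  ring

open Classical in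
theorem t_EDIR (hG : S_EGEN) : S_EDIR := by
  intro K _ _ j S hS k
  obtain ⟨-, hN, hG3⟩ := hG K j
  have h31 : 1 < 3 ^ (k + 1) := Nat.one_lt_pow (by omega) (by norm_num)
  refine ⟨fun th => psi k th, fun th a => rfl, ?_, ?_⟩
  · intro th
    refine ⟨?_, ?_, fun _ => Nat.zero_le _, fun _ _ => rfl, ?_, ?_⟩
    · unfold mE
      rw [Ne, Ideal.span_singleton_eq_bot]
      exact pow_ne_zero _ (by norm_num)
    · unfold mE
      rw [Ne, Ideal.span_singleton_eq_top]
      intro hu
      have hu3 : IsUnit (3 : 𝓞 K) := (isUnit_pow_iff (by omega)).1 hu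
      have h1 : IsUnit (3 : Ei) := by
        have h2 := hu3.map (j.symm : 𝓞 K →+* Ei)
        have h3 : (j.symm : 𝓞 K →+* Ei) 3 = 3 := map_ofNat _ 3
        rwa [h3] at h2
      rw [Pool.Agent.Y692.QS.isUnit_iff] at h1
      exact absurd h1 (by decide)
    · intro a
      show th ((Ideal.absNorm a : ℕ) : ZMod (3 ^ (k + 1))) ≠ 0 ↔ _
      have e1 : th ((Ideal.absNorm a : ℕ) : ZMod (3 ^ (k + 1))) ≠ 0 ↔
          Nat.Coprime (Ideal.absNorm a) (3 ^ (k + 1)) := by
        rw [← ZMod.isUnit_iff_coprime]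
        constructor
        · intro h
          by_contra h1
          exact h (MulChar.map_nonunit th h1)
        · intro h
          exact (h.map th).ne_zero
      rw [e1]
      constructor
      · intro h
        rw [Ideal.isCoprime_iff_exists]
        have h2 := (Nat.isCoprime_iff_coprime.2 h)
        obtain ⟨u, v, huv⟩ := h2
        refine ⟨(u : 𝓞 K) * ((Ideal.absNorm a : ℕ) : 𝓞 K), Ideal.mul_mem_left _ _ (Ideal.absNorm_mem a),
          (v : 𝓞 K) * (3 : 𝓞 K) ^ (k + 1), Ideal.mul_mem_left _ _ (Ideal.mem_span_singleton_self _), ?_⟩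
        have h3 := congrArg (Int.cast : ℤ → 𝓞 K) huv
        push_cast at h3
        exact h3
      · intro h
        rw [Nat.coprime_pow_right_iff (by omega), Nat.coprime_comm,
          Nat.Prime.coprime_iff_not_dvd Nat.prime_three]
        intro h3
        obtain ⟨P, hP1, hP2, hP3⟩ := Ideal.exists_isMaximal_dvd_of_dvd_absNorm
          (p := (3 : ℤ)) Int.prime_three a (by exact_mod_cast h3)
        have h4 : a ≤ P := Ideal.le_of_dvd hP3
        have h5 : mE k K ≤ P := by
          unfold mE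
          rw [Ideal.span_singleton_le_iff_mem]
          apply Ideal.pow_mem_of_mem _ _ _ (by omega)
          have h7 : (3 : ℤ) ∈ Ideal.span {(3 : ℤ)} := Ideal.mem_span_singleton_self _
          rw [← hP2, Ideal.under_def, Ideal.mem_comap] at h7
          simpa using h7
        rw [Ideal.isCoprime_iff_sup_eq] at h
        have h8 : (⊤ : Ideal (𝓞 K)) ≤ P := by
          rw [← h]
          exact sup_le h4 h5
        exact hP1.ne_top (top_le_iff.1 h8)
    · intro x hx hx1
      have e2 : Pool.Agent.Y773.G.sg (fun _ : InfinitePlace K => 0) (x : K) = 1 := by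
        unfold Pool.Agent.Y773.G.sg
        simp
      rw [e2]
      show th ((Ideal.absNorm (Ideal.span {x}) : ℕ) : ZMod (3 ^ (k + 1))) = 1
      have e3 := hN (j.symm x)
      rw [RingEquiv.apply_symm_apply] at e3
      have e4 : (3 : ℤ) ^ (k + 1) ∣ nr (j.symm x) - 1 := by
        unfold mE at hx1
        rw [Ideal.mem_span_singleton] at hx1
        obtain ⟨y, hy⟩ := hx1
        apply nr_cong k (j.symm x) (j.symm y)
        have : x = 1 + 3 ^ (k + 1) * y := by rw [← hy]; ring
        conv_lhs => rw [this]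
        rw [map_add, map_mul, map_pow, map_one]
        push_cast
        rw [map_ofNat]
      have e5 : (((Ideal.absNorm (Ideal.span {x}) : ℕ) : ℤ) : ZMod (3 ^ (k + 1))) =
          ((1 : ℤ) : ZMod (3 ^ (k + 1))) := by
        rw [eq_comm, ZMod.intCast_eq_intCast_iff_dvd_sub, e3]
        exact_mod_cast e4
      have e6 : ((Ideal.absNorm (Ideal.span {x}) : ℕ) : ZMod (3 ^ (k + 1))) = 1 := by
        simpa using e5
      rw [e6, map_one]
  · intro q hq
    have h1 := DirichletCharacter.sum_characters_eq ℂ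
      ((Ideal.absNorm q.asIdeal : ℕ) : ZMod (3 ^ (k + 1)))
    show ∑ th : DirichletCharacter ℂ (3 ^ (k + 1)),
      th ((Ideal.absNorm q.asIdeal : ℕ) : ZMod (3 ^ (k + 1))) = _
    have h2 : ((Nat.totient (3 ^ (k + 1)) : ℕ) : ℂ) = ((2 * 3 ^ k : ℝ) : ℂ) := by
      rw [Nat.totient_prime_pow Nat.prime_three (by omega)]
      push_cast
      ring
    rw [h2] at h1
    refine Eq.trans ?_ (h1.trans ?_)
    · apply Finset.sum_congr
      · ext; simp
      · intro _ _; rfl
    · unfold Ok
      congr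

end T2h16.PK.EDIR
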