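import Pool.Agent.T2h16.PK.Stm
import Pool.Agent.Q283.TC.Count
import Pool.Agent.Y715.T.RecC

/-!
# EGEN: places and primary primes
-/

set_option autoImplicit false

open NumberField IsDedekindDomain

namespace T2h16.PK.EGEN

open Pool.Agent.T3h73.SL (Pl)
open Pool.Agent.Y715.T.RecG (Pq)
open Pool.Agent.Y692.QS (Ei nr)
open Pool.Agent.Y715.T.RecC (exists_prim)
open Pool.Agent.Y715.T.Rs (card_quo)

variable {K : Type} [Field K] [NumberField K] (j : Ei ≃+* 𝓞 K)

/-- the norm of a principal ideal -/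
theorem norm_span (α : Ei) : (Ideal.absNorm (Ideal.span {j α}) : ℤ) = nr α := by
  rw [← card_quo α]
  congr 1
  have e : (Ei ⧸ Ideal.span {α}) ≃+* (𝓞 K ⧸ Ideal.span {j α}) :=
    Ideal.quotientEquiv _ _ j (by rw [Ideal.map_span, Set.image_singleton]; rfl)
  rw [Nat.card_congr e.toEquiv, Ideal.absNorm_apply]
  rfl

theorem mem_span_iff (α β : Ei) : j β ∈ Ideal.span {j α} ↔ α ∣ β := by
  rw [Ideal.mem_span_singleton]
  constructor
  · rintro ⟨c, hc⟩
    refine ⟨j.symm c, j.injective ?_⟩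
    rw [map_mul, j.apply_symm_apply, hc]
  · rintro ⟨c, hc⟩
    exact ⟨j c, by rw [hc, map_mul]⟩

theorem exists_S : ∃ S : Finset (Pl K), IsS S := by
  have h3 : (Ideal.span {(3 : 𝓞 K)}) ≠ 0 := by
    rw [Ne, Ideal.zero_eq_bot, Ideal.span_singleton_eq_bot]
    norm_num
  refine ⟨(Ideal.finite_factors h3).toFinset, fun q => ?_⟩
  rw [Set.Finite.mem_toFinset, Set.mem_ofPred_eq, Ideal.dvd_span_singleton]

theorem three_map : j 3 = 3 := map_ofNat j 3

/-- a generator -/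
theorem exists_gen (q : Pl K) (h3 : (3 : 𝓞 K) ∉ q.asIdeal) :
    ∃ π : Ei, Pq π ∧ q.asIdeal = Ideal.span {j π} := by
  obtain ⟨ρ, hρ⟩ := (IsPrincipalIdealRing.principal (q.asIdeal.comap j)).principal
  have hρ' : q.asIdeal.comap j = Ideal.span {ρ} := hρ
  have hmem : ∀ x : Ei, j x ∈ q.asIdeal ↔ ρ ∣ x := by
    intro x
    rw [← Ideal.mem_span_singleton, ← hρ', Ideal.mem_comap]
  have hρ0 : ρ ≠ 0 := by
    rintro rfl
    apply q.ne_bot
    rw [eq_bot_iff]
    intro x hx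
    have h1 : (0 : Ei) ∣ j.symm x := by
      rw [← hmem, j.apply_symm_apply]
      exact hx
    rw [zero_dvd_iff, map_eq_zero_iff _ j.symm.injective] at h1
    rw [h1]
    exact Ideal.zero_mem _
  have hpr : Prime ρ := by
    rw [← Ideal.span_singleton_prime hρ0, ← hρ']
    exact Ideal.comap_isPrime (j : Ei →+* 𝓞 K) q.asIdeal
  have h3' : ¬ ρ ∣ 3 := by
    rw [← hmem, three_map]
    exact h3
  obtain ⟨u, hu, h⟩ := exists_prim hpr h3'
  have hass : Associated ρ (u * ρ) := (associated_unit_mul_left ρ u hu).symm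
  refine ⟨u * ρ, ⟨hass.prime hpr, h⟩, ?_⟩
  ext x
  obtain ⟨y, rfl⟩ := j.surjective x
  rw [hmem, mem_span_iff]
  exact ⟨fun h => (hass.symm.dvd).trans h, fun h => (hass.dvd).trans h⟩

theorem pg_spec (q : Pl K) (h : ∃ π : Ei, Pq π ∧ q.asIdeal = Ideal.span {j π}) :
    Pq (pg j q) ∧ q.asIdeal = Ideal.span {j (pg j q)} := by
  unfold pg
  rw [dif_pos h]
  exact h.choose_spec

theorem t_EGEN : S_EGEN := by
  intro K _ _ j
  refine ⟨exists_S, norm_span j, fun S hS => ⟨?_, ?_, ?_⟩⟩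
  · intro q hq
    have h3 : (3 : 𝓞 K) ∉ q.asIdeal := fun h => hq ((hS q).2 h)
    obtain ⟨h1, h2⟩ := pg_spec j q (exists_gen j q h3)
    refine ⟨h1, h2, ?_⟩
    conv_lhs => rw [h2]
    exact norm_span j _
  · intro π hπ
    have h0 : j π ≠ 0 := (map_ne_zero_iff _ j.injective).2 hπ.prime.ne_zero
    let q : Pl K := ⟨Ideal.span {j π}, by
      rw [Ideal.span_singleton_prime h0]
      exact (MulEquiv.prime_iff (j : Ei ≃* 𝓞 K)).2 hπ.prime, by
      rw [Ne, Ideal.span_singleton_eq_bot]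
      exact h0⟩
    have hq3 : (3 : 𝓞 K) ∉ q.asIdeal := by
      intro h
      have h1 : j 3 ∈ Ideal.span {j π} := by rw [three_map]; exact h
      rw [mem_span_iff] at h1
      exact hπ.norm h1
    obtain ⟨h1, h2⟩ := pg_spec j q ⟨π, hπ, rfl⟩
    refine ⟨q, fun h => hq3 ((hS q).1 h), ?_⟩
    apply Q283.TC.pq_eq_of_dvd hπ h1
    rw [← mem_span_iff j, ← h2]
    exact Ideal.mem_span_singleton_self _
  · intro q q' hq hq' h
    have h3 : (3 : 𝓞 K) ∉ q.asIdeal := fun h => hq ((hS q).2 h)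
    have h3' : (3 : 𝓞 K) ∉ q'.asIdeal := fun h => hq' ((hS q').2 h)
    have h1 := (pg_spec j q (exists_gen j q h3)).2
    have h2 := (pg_spec j q' (exists_gen j q' h3')).2
    rw [← h] at h2
    exact HeightOneSpectrum.ext (h1.trans h2.symm)

end T2h16.PK.EGEN
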