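import Pool.Agent.T2h16.PK.Stm

/-! Project PK, task FIN (helper16): the assembly. -/

set_option autoImplicit false

open NumberField IsDedekindDomain Filter Topology

namespace T2h16.PK.FIN

open Pool.Agent.T3h73.SL (Pl)
open Pool.Agent.T3h73.SD (NA kap)
open Pool.Agent.Y692.QS (Ei)
open Pool.Agent.Y715.T.St T2h16.TT.St

theorem pro_nonneg (k : ℕ) (P : Finset Eis) : 0 ≤ pro k P := by
  unfold pro; positivity

theorem pro_le (k : ℕ) (P : Finset Eis) : pro k P ≤ 1 := by
  unfold pro
  rcases finite_or_infinite (Fam k P) with h | h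
  · apply div_le_one_of_le₀ _ (by positivity)
    have := Nat.card_le_card_of_injective (Subtype.val : {lam : Fam k P // Cc k P lam} → Fam k P)
      Subtype.val_injective
    exact_mod_cast this
  · rw [Nat.card_eq_zero_of_infinite (α := Fam k P), Nat.cast_zero, div_zero]
    exact zero_le_one

theorem mean_nonneg {K : Type} [Field K] [NumberField K] (j : Ei ≃+* 𝓞 K) (τ : ZMod 3)
    (P : Finset (Pl K)) (F : (P → Fin 2) → ℝ) (hF : ∀ e, 0 ≤ F e) : 0 ≤ mean j τ P F := by
  unfold mean
  refine mul_nonneg (by positivity) (Finset.sum_nonneg fun e _ => ?_)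
  split_ifs
  · exact hF e
  · exact le_rfl

open Classical in
theorem t_FIN (hX : S_EXK) (hG : S_EGEN) (hD : S_DISK) (hP : S_TPN) (hC : S_CHR) (hT : S_TRA)
    (hN : (0.63 : ℝ) < kap 3) : S_FIN := by
  intro k hk
  obtain ⟨K, _, _, ⟨j⟩⟩ := hX
  obtain ⟨⟨S, hS⟩, -, -⟩ := hG K j
  have hk1 : 1 ≤ k := by omega
  obtain ⟨hP1, hP2, -⟩ := hP K j S hS k hk1
  have hTP : ∀ s : ℝ, ∑' P : Finset Eis, (if ∀ ρ ∈ P, Adm k ρ then NE P ^ (-s) else 0) =
      TP S k s := by
    intro s
    have h := hT K j S hS k hk1 (fun _ => 1) s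
    simp only [mul_one] at h
    rw [h]
    rfl
  have hpro : ∀ s : ℝ, ∑' P : Finset Eis, (if ∀ ρ ∈ P, Adm k ρ then NE P ^ (-s) * pro k P else 0) =
      ∑' P : Finset (Pl K), (if Disjoint P S ∧ ∀ q ∈ P, Ok k q then
        (NA P : ℝ) ^ (-s) * pro k (P.image (pg j)) else 0) := fun s => hT K j S hS k hk1 (pro k) s
  refine ⟨?_, ?_, hN, ?_⟩
  · intro s hs
    by_contra h
    have h1 := hTP s
    rw [tsum_eq_zero_of_not_summable h] at h1
    have h2 := (hP1 s hs).2.1
    rw [← h1] at h2
    linarith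
  · exact hP2.congr fun s => (hTP s).symm
  · intro ε hε
    simp only [hTP, hpro]
    set G : ∀ P : Finset (Pl K), (P → Fin 2) → ℝ :=
      fun P e => if P.Nonempty ∧ nL j P e = 3 then 1 else 0 with hGd
    have hG0 : ∀ P e, 0 ≤ G P e := fun P e => by
      rw [hGd]
      dsimp only
      split_ifs
      · exact zero_le_one
      · exact le_rfl
    have hlim : Tendsto (fun s : ℝ => ∑ τ ∈ (Finset.univ.erase (0 : ZMod 3)),
        MR j S k τ G s / TP S k s) (𝓝[>] 1)
        (𝓝 (∑ τ ∈ (Finset.univ.erase (0 : ZMod 3)), kap 3 / 3)) :=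
      tendsto_finsetSum _ fun τ _ => hD K j S hS k τ hk1
    have hcard : ((Finset.univ.erase (0 : ZMod 3)).card : ℝ) = 2 := by
      have : (Finset.univ.erase (0 : ZMod 3)).card = 2 := by decide
      rw [this]
      norm_num
    rw [Finset.sum_const, nsmul_eq_mul, hcard] at hlim
    have hlt : 2 * (kap 3 / 3) - ε < 2 * (kap 3 / 3) := by linarith
    filter_upwards [hlim.eventually (lt_mem_nhds hlt), self_mem_nhdsWithin] with s h1 h2
    have hs : (1 : ℝ) < s := h2
    obtain ⟨-, hT1, -, hsum⟩ := hP1 s hs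
    have hTpos : 0 < TP S k s := by linarith
    rw [← Finset.sum_div, lt_div_iff₀ hTpos] at h1
    have e0 : (2 / 3 * kap 3 - ε) * TP S k s = (2 * (kap 3 / 3) - ε) * TP S k s := by ring
    rw [e0]
    refine h1.le.trans ?_
    have hs0 : Summable fun P : Finset (Pl K) => (NA P : ℝ) ^ (-s) := by
      have := hsum 0
      simpa using this
    have hNA : ∀ P : Finset (Pl K), 0 ≤ (NA P : ℝ) ^ (-s) := fun P => by positivity
    have hspro : Summable fun P : Finset (Pl K) => if Disjoint P S ∧ ∀ q ∈ P, Ok k q then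
        (NA P : ℝ) ^ (-s) * pro k (P.image (pg j)) else 0 := by
      refine hs0.of_nonneg_of_le (fun P => ?_) fun P => ?_
      · split_ifs
        · exact mul_nonneg (hNA P) (pro_nonneg _ _)
        · exact le_rfl
      · split_ifs
        · exact mul_le_of_le_one_right (hNA P) (pro_le _ _)
        · exact hNA P
    have hle : ∀ (P : Finset (Pl K)), Disjoint P S → (∀ q ∈ P, Ok k q) → ∀ τ : ZMod 3, τ ≠ 0 →
        mean j τ P (G P) ≤ pro k (P.image (pg j)) := by
      intro P hd hok τ hτ
      refine le_trans ?_ (hC K j S hS k hk P hd hok)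
      exact Finset.single_le_sum (f := fun τ => mean j τ P (G P))
        (fun i _ => mean_nonneg j i P _ (hG0 P)) (by simp [hτ])
    have hsm : ∀ τ ∈ (Finset.univ.erase (0 : ZMod 3)), Summable fun P : Finset (Pl K) =>
        if Disjoint P S ∧ ∀ q ∈ P, Ok k q then (NA P : ℝ) ^ (-s) * mean j τ P (G P) else 0 := by
      intro τ hτ
      refine hspro.of_nonneg_of_le (fun P => ?_) fun P => ?_
      · split_ifs
        · exact mul_nonneg (hNA P) (mean_nonneg _ _ _ _ (hG0 P))
        · exact le_rfl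
      · split_ifs with h
        · exact mul_le_mul_of_nonneg_left (hle P h.1 h.2 τ (Finset.ne_of_mem_erase hτ)) (hNA P)
        · exact le_rfl
    have e1 : ∑ τ ∈ (Finset.univ.erase (0 : ZMod 3)), MR j S k τ G s =
        ∑' P : Finset (Pl K), ∑ τ ∈ (Finset.univ.erase (0 : ZMod 3)),
          (if Disjoint P S ∧ ∀ q ∈ P, Ok k q then (NA P : ℝ) ^ (-s) * mean j τ P (G P) else 0) := by
      rw [Summable.tsum_finsetSum hsm]
      rfl
    rw [e1]
    refine Summable.tsum_le_tsum (fun P => ?_) (summable_sum hsm) hspro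
    by_cases h : Disjoint P S ∧ ∀ q ∈ P, Ok k q
    · simp only [if_pos h]
      rw [← Finset.mul_sum]
      exact mul_le_mul_of_nonneg_left (hC K j S hS k hk P h.1 h.2) (hNA P)
    · simp only [if_neg h, Finset.sum_const_zero]
      exact le_rfl

end T2h16.PK.FIN
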