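import Pool.Agent.T2h16.PK.Stm
import Pool.Agent.T3h73.SD.T_EXP

/-! Project PK (helper16), task FINI (helper26): the finite identity. -/

set_option autoImplicit false
set_option linter.all false

open NumberField IsDedekindDomain Filter Topology

namespace T2h16.PK.FINI

open Pool.Agent.T3h73.SL (Pl)
open Pool.Agent.T3h73.SD (ee Cl Rc)
open Pool.Agent.T3h73.SD.EXP (ee_add ee_zero sum_kap sum_char_pos sum_char_neg)
open Pool.Agent.Y692.QS (Ei)

theorem count (ι : Type) [Fintype ι] [DecidableEq ι] (r : ℕ) (W : (ι → ZMod 3) → Prop)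
    [DecidablePred fun x : ι → Fin r → ZMod 3 => ∀ i, W fun p => x p i] :
    ((Finset.univ : Finset (ι → Fin r → ZMod 3)).filter fun x => ∀ i, W fun p => x p i).card =
      (Nat.card {v : ι → ZMod 3 // W v}) ^ r := by
  have e : {x : ι → Fin r → ZMod 3 // ∀ i, W fun p => x p i} ≃ (Fin r → {v : ι → ZMod 3 // W v}) :=
    { toFun := fun x i => ⟨fun p => x.1 p i, x.2 i⟩
      invFun := fun y => ⟨fun p i => (y i).1 p, fun i => (y i).2⟩
      left_inv := fun x => rfl
      right_inv := fun y => rfl }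
  rw [← Fintype.card_subtype, ← Nat.card_eq_fintype_card, Nat.card_congr e, Nat.card_fun,
    Nat.card_eq_fintype_card (α := Fin r), Fintype.card_fin]

theorem ex_ne (i : Fin 2) : ex i ≠ 0 := by
  unfold ex
  split_ifs <;> decide

/-- the sum over the colours -/
theorem colsum (ι : Type) [Fintype ι] [DecidableEq ι] (r : ℕ) (u : ι → ZMod 3) (hu : ∀ p, u p ≠ 0)
    (s : ι → ι → ZMod 3) :
    ∑ c : ι → Cl 3 r, ee 3 (∑ p, ∑ q, if p = q then 0 else u p * u q * Rc 3 r (c q) (c p) * s p q) =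
      (3 : ℂ) ^ (r * Fintype.card ι) *
        ((Nat.card {v : ι → ZMod 3 // ∀ p, ∑ q, u q * s p q * (v q - v p) = 0} : ℕ) : ℂ) ^ r := by
  classical
  rw [← (Equiv.arrowProdEquivProdArrow ι (fun _ => Fin r → ZMod 3) (fun _ => Fin r → ZMod 3)).symm.sum_comp]
  rw [Fintype.sum_prod_type]
  have h1 : ∀ x y : ι → Fin r → ZMod 3,
      (∑ p, ∑ q, if p = q then 0 else u p * u q *
        Rc 3 r ((Equiv.arrowProdEquivProdArrow ι (fun _ => Fin r → ZMod 3) (fun _ => Fin r → ZMod 3)).symm (x, y) q)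
          ((Equiv.arrowProdEquivProdArrow ι (fun _ => Fin r → ZMod 3) (fun _ => Fin r → ZMod 3)).symm (x, y) p) * s p q) =
      ∑ pi : ι × Fin r, y pi.1 pi.2 * (u pi.1 * ∑ q, u q * s pi.1 q * (x q pi.2 - x pi.1 pi.2)) := by
    intro x y
    rw [Fintype.sum_prod_type]
    refine Finset.sum_congr rfl fun p _ => ?_
    have h2 : ∀ q, (if p = q then 0 else u p * u q *
        Rc 3 r ((Equiv.arrowProdEquivProdArrow ι (fun _ => Fin r → ZMod 3) (fun _ => Fin r → ZMod 3)).symm (x, y) q)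
          ((Equiv.arrowProdEquivProdArrow ι (fun _ => Fin r → ZMod 3) (fun _ => Fin r → ZMod 3)).symm (x, y) p) * s p q) =
        ∑ i, y p i * (u p * (u q * s p q * (x q i - x p i))) := by
      intro q
      split_ifs with h
      · subst h
        simp
      · show u p * u q * (∑ i, y p i * (x q i - x p i)) * s p q = _
        rw [Finset.mul_sum, Finset.sum_mul]
        exact Finset.sum_congr rfl fun i _ => by ring
    simp only [h2]
    rw [Finset.sum_comm]
    refine Finset.sum_congr rfl fun i _ => ?_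
    rw [Finset.mul_sum, Finset.mul_sum]
  simp only [h1]
  have h3 : ∀ x : ι → Fin r → ZMod 3, ∑ y : ι → Fin r → ZMod 3,
      ee 3 (∑ pi : ι × Fin r, y pi.1 pi.2 * (u pi.1 * ∑ q, u q * s pi.1 q * (x q pi.2 - x pi.1 pi.2))) =
      if ∀ i, (∀ p, ∑ q, u q * s p q * ((fun p => x p i) q - (fun p => x p i) p) = 0) then
        (3 : ℂ) ^ (r * Fintype.card ι) else 0 := by
    intro x
    have h4 := sum_kap (ℓ := 3) (ι := ι × Fin r)
      (fun pi => u pi.1 * ∑ q, u q * s pi.1 q * (x q pi.2 - x pi.1 pi.2))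
    rw [← (Equiv.curry ι (Fin r) (ZMod 3)).symm.sum_comp] at h4
    have h5 : (∀ q : ι × Fin r, u q.1 * ∑ q_1, u q_1 * s q.1 q_1 * (x q_1 q.2 - x q.1 q.2) = 0) ↔
        ∀ i, (∀ p, ∑ q, u q * s p q * ((fun p => x p i) q - (fun p => x p i) p) = 0) := by
      constructor
      · intro H i p
        exact (mul_eq_zero.1 (H (p, i))).resolve_left (hu p)
      · intro H q
        rw [H q.2 q.1, mul_zero]
    refine Eq.trans ?_ (h4.trans ?_)
    · refine Finset.sum_congr rfl fun y _ => ?_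
      rfl
    · rw [Fintype.card_prod, Fintype.card_fin, mul_comm (Fintype.card ι) r]
      by_cases H : ∀ q : ι × Fin r, u q.1 * ∑ q_1, u q_1 * s q.1 q_1 * (x q_1 q.2 - x q.1 q.2) = 0
      · rw [if_pos H, if_pos (h5.1 H)]
        norm_num
      · rw [if_neg H, if_neg (fun h => H (h5.2 h))]
  rw [Finset.sum_congr rfl fun x _ => h3 x]
  rw [← Finset.sum_filter, Finset.sum_const, nsmul_eq_mul]
  rw [count ι r (fun v => ∀ p, ∑ q, u q * s p q * (v q - v p) = 0)]
  push_cast
  ring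

open Classical in
theorem t_FINI : S_FINI := by
  intro K _ _ j S hS r τ P hP
  have hWP : ∀ β : ZMod 3, WP j r β P = ∑ e : P → Fin 2,
      ee 3 (β * ∑ q : P, ex (e q) * tt (pg j q)) * (((2 : ℂ) ^ P.card)⁻¹ * ((nL j P e : ℕ) : ℂ) ^ r) := by
    intro β
    unfold WP
    rw [← (Equiv.arrowProdEquivProdArrow P (fun _ => Cl 3 r) (fun _ => Fin 2)).symm.sum_comp,
      Fintype.sum_prod_type_right]
    refine Finset.sum_congr rfl fun e _ => ?_
    have h1 := colsum P r (fun p => ex (e p)) (fun p => ex_ne _) (fun p q => syE j p q)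
    have h2 : ∀ c : P → Cl 3 r, (((((3 : ℝ) ^ r)⁻¹ / 2) ^ P.card : ℝ) : ℂ) *
        ee 3 (∑ q : P, chC j r β (some ((Equiv.arrowProdEquivProdArrow P (fun _ => Cl 3 r)
          (fun _ => Fin 2)).symm (c, e) q)) q +
        ∑ p : P, ∑ q : P, if p = q then 0 else rhoC j r
          (some ((Equiv.arrowProdEquivProdArrow P (fun _ => Cl 3 r) (fun _ => Fin 2)).symm (c, e) p))
          (some ((Equiv.arrowProdEquivProdArrow P (fun _ => Cl 3 r) (fun _ => Fin 2)).symm (c, e) q)) p q) =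
        (((((3 : ℝ) ^ r)⁻¹ / 2) ^ P.card : ℝ) : ℂ) * ee 3 (β * ∑ q : P, ex (e q) * tt (pg j q)) *
        ee 3 (∑ p : P, ∑ q : P, if p = q then 0 else
          ex (e p) * ex (e q) * Rc 3 r (c q) (c p) * syE j p q) := by
      intro c
      rw [ee_add, mul_assoc]
      congr 2
      rw [Finset.mul_sum]
      congr 1
      refine Finset.sum_congr rfl fun q _ => ?_
      show β * ex (e q) * tt (pg j q) = _
      ring
    rw [Finset.sum_congr rfl fun c _ => h2 c, ← Finset.mul_sum, h1]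
    have h3 : nL j P e = Nat.card {v : P → ZMod 3 //
        ∀ p : P, ∑ q : P, ex (e q) * syE j p q * (v q - v p) = 0} := rfl
    rw [h3, Fintype.card_coe]
    push_cast
    have h4 : ((((3 : ℂ) ^ r)⁻¹ / 2) ^ P.card) * (3 : ℂ) ^ (r * P.card) = ((2 : ℂ) ^ P.card)⁻¹ := by
      rw [pow_mul, ← mul_pow]
      have : ((3 : ℂ) ^ r)⁻¹ / 2 * 3 ^ r = 2⁻¹ := by
        have h5 : (3 : ℂ) ^ r ≠ 0 := pow_ne_zero _ (by norm_num)
        field_simp
      rw [this, inv_pow]
    rw [← h4]
    ring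
  simp only [hWP]
  have h6 : ∑ β : ZMod 3, ee 3 (-(β * τ)) * ∑ e : P → Fin 2,
      ee 3 (β * ∑ q : P, ex (e q) * tt (pg j q)) * (((2 : ℂ) ^ P.card)⁻¹ * ((nL j P e : ℕ) : ℂ) ^ r) =
      ∑ e : P → Fin 2, (if ∑ q : P, ex (e q) * tt (pg j q) = τ then (3 : ℂ) else 0) *
        (((2 : ℂ) ^ P.card)⁻¹ * ((nL j P e : ℕ) : ℂ) ^ r) := by
    rw [Finset.sum_congr rfl fun β _ => Finset.mul_sum _ _ _, Finset.sum_comm]
    refine Finset.sum_congr rfl fun e _ => ?_
    rw [← Finset.sum_congr rfl fun β _ => mul_assoc _ _ _, ← Finset.sum_mul]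
    congr 1
    set T := ∑ q : P, ex (e q) * tt (pg j q) with hT
    have h7 : ∀ β : ZMod 3, ee 3 (-(β * τ)) * ee 3 (β * T) = ee 3 (β * (T - τ)) := by
      intro β
      rw [← ee_add]
      congr 1
      ring
    simp only [h7]
    by_cases h9 : T = τ
    · rw [if_pos h9]
      have h8 := sum_char_pos (ℓ := 3) (G := ZMod 3) (AddMonoidHom.mulRight (T - τ)) (fun g => by
        rw [AddMonoidHom.mulRight_apply, h9, sub_self, mul_zero])
      simp only [AddMonoidHom.mulRight_apply, ZMod.card] at h8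
      rw [h8]
      norm_num
    · rw [if_neg h9]
      have h8 := sum_char_neg (ℓ := 3) (G := ZMod 3) (AddMonoidHom.mulRight (T - τ)) (fun H => by
        have := H 1
        rw [AddMonoidHom.mulRight_apply, one_mul, sub_eq_zero] at this
        exact h9 this)
      simp only [AddMonoidHom.mulRight_apply] at h8
      exact h8
  rw [h6]
  unfold mean
  push_cast
  rw [Finset.mul_sum, Finset.mul_sum]
  refine Finset.sum_congr rfl fun e _ => ?_
  by_cases h9 : ∑ q : P, ex (e q) * tt (pg j q) = τ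
  · rw [if_pos h9, if_pos h9]
    push_cast
    ring
  · rw [if_neg h9, if_neg h9]
    simp

end T2h16.PK.FINI
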