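import Pool.Agent.T2h16.PK.Stm
import Pool.Agent.T2h16.PK.MASa
import Pool.Agent.T3h73.SD.Prs

/-!
# Task MASE of project PK (board t16p_tasks of helper16), by helper94
-/

set_option autoImplicit false

open NumberField IsDedekindDomain

namespace T2h16.PK.MASE

open Pool.Agent.T3h73.SL (Pl)
open Pool.Agent.T3h73
open Pool.Agent.H921R2.TatePole (nm nm_summable)
open Pool.Agent.Y692.QS (Ei)

/-- the sum over the places of a number field -/
theorem psum2 (E : Type) [Field E] [NumberField E] : ∃ C : ℝ, 0 ≤ C ∧ ∀ s : ℝ, 1 < s → s ≤ 2 →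
    |∑' q : Pl E, (nm q : ℝ) ^ (-s) - Real.log (1 / (s - 1))| ≤ C := by
  obtain ⟨C₁, hC₁, h1⟩ := SD.Prs.psum_le E
  obtain ⟨C₂, s₀, hC₂, hs₀, h2⟩ := SD.Prs.psum_ge E
  refine ⟨C₁ + C₂ + |Real.log (1 / (s₀ - 1))|, by positivity, fun s hs hs2 => ?_⟩
  have h3 := h1 s hs hs2
  have h4 := abs_nonneg (Real.log (1 / (s₀ - 1)))
  rw [abs_le]
  constructor
  · rcases lt_or_ge s s₀ with h | h
    · have := h2 s hs h
      linarith
    · have h5 : 0 ≤ ∑' q : Pl E, (nm q : ℝ) ^ (-s) := tsum_nonneg fun q => by positivity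
      have h6 : Real.log (1 / (s - 1)) ≤ Real.log (1 / (s₀ - 1)) := by
        apply Real.log_le_log
        · have : 0 < s - 1 := by linarith
          positivity
        · exact one_div_le_one_div_of_le (by linarith) (by linarith)
      have h7 := le_abs_self (Real.log (1 / (s₀ - 1)))
      linarith
  · linarith

open Classical in
theorem t_MASE (hG : S_EGEN) (hD : S_DIR) : S_MASE := by
  intro K _ _ j S hS k hk
  obtain ⟨-, hN, h3⟩ := hG K j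
  have hgen : ∀ q : Pl K, q ∉ S → ∃ π : Ei, q.asIdeal = Ideal.span {j π} :=
    fun q hq => ⟨_, ((h3 S hS).1 q hq).2.1⟩
  obtain ⟨C₁, hC₁, h1⟩ := core j hN S hS hgen (3 ^ (k + 1)) (dvd_pow_self 3 (by omega))
  obtain ⟨C₂, hC₂, h2⟩ := hD (3 ^ (k + 1)) (Nat.one_le_pow _ _ (by norm_num))
  obtain ⟨C₃, hC₃, h4⟩ := psum2 K
  refine ⟨C₁ + 2 * C₂ + C₃ + S.card, by positivity, fun s hs hs2 => ?_⟩
  have g1 := h1 s hs hs2
  have g2 := h2 s hs hs2
  have g4 := h4 s hs hs2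
  obtain ⟨A, hA⟩ : ∃ A : ℝ, A = ∑' q : Pl K, (if q ∉ S ∧ Ok k q then
      (Ideal.absNorm q.asIdeal : ℝ) ^ (-s) else 0) := ⟨_, rfl⟩
  obtain ⟨B, hB⟩ : ∃ B : ℝ, B = ∑' q : Pl K, (if q ∉ S ∧ ¬ Ok k q then
      (Ideal.absNorm q.asIdeal : ℝ) ^ (-s) else 0) := ⟨_, rfl⟩
  obtain ⟨D, hDD⟩ : ∃ D : ℝ, D = ∑' p : Nat.Primes, (if ((p : ℕ) : ZMod (3 ^ (k + 1))) = 1 then
      ((p : ℕ) : ℝ) ^ (-s) else 0) := ⟨_, rfl⟩
  have hA' : (∑' q : Pl K, (if q ∉ S ∧ ((Ideal.absNorm q.asIdeal : ℕ) : ZMod (3 ^ (k + 1))) = 1 then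
        (Ideal.absNorm q.asIdeal : ℝ) ^ (-s) else 0)) = A := by
    rw [hA]
    exact tsum_congr fun q => if_congr Iff.rfl rfl rfl
  rw [hA', ← hDD] at g1
  rw [← hDD] at g2
  rw [← hA, ← hB]
  have hsum : Summable fun q : Pl K => (Ideal.absNorm q.asIdeal : ℝ) ^ (-s) := nm_summable hs
  have hs0 : ∀ q : Pl K, 0 ≤ (Ideal.absNorm q.asIdeal : ℝ) ^ (-s) := fun q => by positivity
  have hsub : ∀ (P : Pl K → Prop) [DecidablePred P], Summable fun q =>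
      if P q then (Ideal.absNorm q.asIdeal : ℝ) ^ (-s) else 0 := by
    intro P _
    refine Summable.of_nonneg_of_le (fun q => ?_) (fun q => ?_) hsum
    · split_ifs
      · exact hs0 q
      · exact le_rfl
    · split_ifs
      · exact le_rfl
      · exact hs0 q
  obtain ⟨F, hF⟩ : ∃ F : ℝ, F = ∑' q : Pl K, (if q ∈ S then
      (Ideal.absNorm q.asIdeal : ℝ) ^ (-s) else 0) := ⟨_, rfl⟩
  have hF0 : 0 ≤ F := by
    rw [hF]
    refine tsum_nonneg fun q => ?_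
    split_ifs
    · exact hs0 q
    · exact le_rfl
  have hF1 : F ≤ S.card := by
    rw [hF, tsum_eq_sum (s := S) fun q hq => if_neg hq]
    have h5 : ∑ q ∈ S, (if q ∈ S then (Ideal.absNorm q.asIdeal : ℝ) ^ (-s) else 0) ≤ ∑ q ∈ S, (1 : ℝ) := by
      refine Finset.sum_le_sum fun q hq => ?_
      rw [if_pos hq]
      refine Real.rpow_le_one_of_one_le_of_nonpos ?_ (by linarith)
      have h6 : Ideal.absNorm q.asIdeal ≠ 0 := by
        rw [Ne, Ideal.absNorm_eq_zero_iff]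
        exact q.ne_bot
      exact_mod_cast Nat.one_le_iff_ne_zero.2 h6
    refine h5.trans (le_of_eq ?_)
    rw [Finset.sum_const, nsmul_eq_mul, mul_one]
  have hT : ∑' q : Pl K, (nm q : ℝ) ^ (-s) = A + B + F := by
    have t1 := hsub (fun q => q ∉ S ∧ Ok k q)
    have t2 := hsub (fun q => q ∉ S ∧ ¬ Ok k q)
    have t3 := hsub (fun q => q ∈ S)
    rw [hA, hB, hF]
    have e2 := (t1.add t2).tsum_add t3
    have e3 := t1.tsum_add t2
    rw [← e3, ← e2]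
    refine tsum_congr fun q => ?_
    show (Ideal.absNorm q.asIdeal : ℝ) ^ (-s) = _
    by_cases h5 : q ∈ S
    · rw [if_neg (fun h => h.1 h5), if_neg (fun h => h.1 h5), if_pos h5, zero_add, zero_add]
    · by_cases h6 : Ok k q
      · rw [if_pos ⟨h5, h6⟩, if_neg (fun h => h.2 h6), if_neg h5, add_zero, add_zero]
      · rw [if_neg (fun h => h6 h.2), if_pos ⟨h5, h6⟩, if_neg h5, add_zero, zero_add]
  rw [hT] at g4
  have htot : (((3 ^ (k + 1) : ℕ).totient : ℕ) : ℝ)⁻¹ = ((3 : ℝ) ^ k)⁻¹ / 2 := by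
    rw [Nat.totient_prime_pow_succ Nat.prime_three]
    push_cast
    have h5 : (0 : ℝ) < 3 ^ k := by positivity
    field_simp
  rw [htot] at g2
  obtain ⟨L, hL⟩ : ∃ L : ℝ, L = Real.log (1 / (s - 1)) := ⟨_, rfl⟩
  rw [← hL] at g2 g4 ⊢
  obtain ⟨x, hx⟩ : ∃ x : ℝ, x = ((3 : ℝ) ^ k)⁻¹ * L := ⟨_, rfl⟩
  have e1 : ((3 : ℝ) ^ k)⁻¹ / 2 * L = x / 2 := by rw [hx]; ring
  have e2 : (1 - ((3 : ℝ) ^ k)⁻¹) * L = L - x := by rw [hx]; ring
  rw [e1] at g2
  rw [← hx, e2]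
  rw [abs_le] at g1 g2 g4
  obtain ⟨a1, a2⟩ := g1
  obtain ⟨b1, b2⟩ := g2
  obtain ⟨c1, c2⟩ := g4
  have hcard : (0 : ℝ) ≤ S.card := Nat.cast_nonneg _
  refine ⟨?_, ?_⟩
  · rw [abs_le]
    constructor <;> linarith
  · rw [abs_le]
    constructor <;> linarith

end T2h16.PK.MASE
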