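import Pool.Agent.T2h16.PK.Stm

/-! Project PK (helper16), task NUM (helper26): a numerical lower bound for `kap 3`. -/

set_option autoImplicit false

open Filter Topology

namespace T2h16.PK.NUM

open Pool.Agent.T3h73.SD (kap)

theorem part (n : ℕ) : (0.638 : ℝ) * (1 + 0.51 * ((3 : ℝ) ^ (n + 2))⁻¹) ≤
    ∏ i ∈ Finset.range (n + 2), (1 + ((3 : ℝ) ^ (i + 1))⁻¹)⁻¹ := by
  induction n with
  | zero =>
    simp only [Nat.zero_add, Finset.prod_range_succ, Finset.prod_range_zero]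
    norm_num
  | succ n ih =>
    rw [show n + 1 + 2 = (n + 2) + 1 by ring, Finset.prod_range_succ]
    set x : ℝ := ((3 : ℝ) ^ (n + 2 + 1))⁻¹ with hx
    have hx0 : 0 < x := by positivity
    have h9 : (27 : ℝ) ≤ (3 : ℝ) ^ (n + 2 + 1) := by
      have : (3 : ℝ) ^ 3 ≤ (3 : ℝ) ^ (n + 2 + 1) := pow_le_pow_right₀ (by norm_num) (by omega)
      linarith
    have hx1 : x ≤ 1 / 27 := by
      rw [hx, ← one_div]
      exact one_div_le_one_div_of_le (by norm_num) h9
    have h3 : ((3 : ℝ) ^ (n + 2))⁻¹ = 3 * x := by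
      rw [hx, pow_succ, mul_inv]
      ring
    rw [h3] at ih
    have h1x : 0 < 1 + x := by linarith
    rw [le_mul_inv_iff₀ h1x]
    refine le_trans ?_ ih
    nlinarith

theorem t_NUM : (0.63 : ℝ) < kap 3 := by
  unfold kap
  push_cast
  by_cases h : Multipliable fun i : ℕ => (1 + ((3 : ℝ) ^ (i + 1))⁻¹)⁻¹
  · have h1 := h.hasProd.tendsto_prod_nat
    have h2 : (0.638 : ℝ) ≤ ∏' i : ℕ, (1 + ((3 : ℝ) ^ (i + 1))⁻¹)⁻¹ := by
      refine ge_of_tendsto h1 ?_
      filter_upwards [eventually_ge_atTop 2] with m hm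
      obtain ⟨n, rfl⟩ := Nat.exists_eq_add_of_le' hm
      refine le_trans ?_ (part n)
      have : (0 : ℝ) ≤ ((3 : ℝ) ^ (n + 2))⁻¹ := by positivity
      nlinarith
    exact lt_of_lt_of_le (by norm_num) h2
  · rw [tprod_eq_one_of_not_multipliable h]
    norm_num

end T2h16.PK.NUM
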