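import Pool.Agent.T2h16.PK.Stm

set_option autoImplicit false
set_option linter.all false

open NumberField IsDedekindDomain Filter Topology

namespace T2h16.PK.TRA

open Pool.Agent.T3h73.SL (Pl)
open Pool.Agent.T3h73.SD (NA)
open Pool.Agent.Y715.T.St T2h16.TT.St
open Pool.Agent.Y715.T.RecG (Pq)
open Pool.Agent.Y692.QS (Ei w nr)

open Classical in
theorem t_TRA (hG : S_EGEN) : S_TRA := by
  intro K _ _ j S hS k hk F s
  obtain ⟨-, -, hG3⟩ := hG K j
  obtain ⟨g1, g2, g3⟩ := hG3 S hS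
  -- the embedding of the sets of places
  set T : Finset (Pl K) → Prop := fun P => Disjoint P S ∧ ∀ q ∈ P, Ok k q with hT
  set U : Finset Eis → Prop := fun P => ∀ ρ ∈ P, Adm k ρ with hU
  have hnotS : ∀ P, T P → ∀ q ∈ P, q ∉ S := fun P hP q hq hqS =>
    (Finset.disjoint_left.1 hP.1 hq) hqS
  have hadm : ∀ q : Pl K, q ∉ S → (Adm k (pg j q) ↔ Ok k q) := by
    intro q hq
    obtain ⟨a1, a2, a3⟩ := g1 q hq
    have e1 : nrm (pg j q) = (Ideal.absNorm q.asIdeal : ℤ) := a3.symm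
    unfold Adm Ok
    constructor
    · rintro ⟨-, -, h3⟩
      rw [e1] at h3
      have h4 : (((Ideal.absNorm q.asIdeal : ℕ) : ℤ) : ZMod (3 ^ (k + 1))) = ((1 : ℤ) : ZMod (3 ^ (k + 1))) := by
        rw [eq_comm, ZMod.intCast_eq_intCast_iff_dvd_sub]
        exact_mod_cast h3
      simpa using h4
    · intro h
      refine ⟨a1.prime, a1.three, ?_⟩
      rw [e1]
      have h4 : (((Ideal.absNorm q.asIdeal : ℕ) : ℤ) : ZMod (3 ^ (k + 1))) = ((1 : ℤ) : ZMod (3 ^ (k + 1))) := by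
        simpa using h
      rw [eq_comm, ZMod.intCast_eq_intCast_iff_dvd_sub] at h4
      exact_mod_cast h4
  have hinj : ∀ P, T P → Set.InjOn (pg j) (P : Set (Pl K)) := by
    intro P hP q hq q' hq' he
    exact g3 q q' (hnotS P hP q hq) (hnotS P hP q' hq') he
  -- image
  have himU : ∀ P, T P → U (P.image (pg j)) := by
    intro P hP ρ hρ
    obtain ⟨q, hq, rfl⟩ := Finset.mem_image.1 hρ
    exact (hadm q (hnotS P hP q hq)).2 (hP.2 q hq)
  have hNE : ∀ P, T P → NE (P.image (pg j)) = (NA P : ℝ) := by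
    intro P hP
    unfold NE NA
    rw [Finset.prod_image (fun q hq q' hq' he => hinj P hP hq hq' he)]
    push_cast
    apply Finset.prod_congr rfl
    intro q hq
    obtain ⟨a1, a2, a3⟩ := g1 q (hnotS P hP q hq)
    have e1 : nrm (pg j q) = (Ideal.absNorm q.asIdeal : ℤ) := a3.symm
    rw [e1]
    simp
  have hinjT : ∀ P P', T P → T P' → P.image (pg j) = P'.image (pg j) → P = P' := by
    have key : ∀ P P', T P → T P' → P.image (pg j) = P'.image (pg j) → P ⊆ P' := by
      intro P P' hP hP' he q hq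
      have h1 : pg j q ∈ P'.image (pg j) := by
        rw [← he]
        exact Finset.mem_image_of_mem _ hq
      obtain ⟨q', hq', he'⟩ := Finset.mem_image.1 h1
      have := g3 q' q (hnotS P' hP' q' hq') (hnotS P hP q hq) he'
      rwa [← this]
    intro P P' hP hP' he
    exact Finset.Subset.antisymm (key P P' hP hP' he) (key P' P hP' hP he.symm)
  have hsurj : ∀ Q, U Q → ∃ P, T P ∧ P.image (pg j) = Q := by
    intro Q hQ
    have h1 : ∀ ρ : Q, ∃ q : Pl K, q ∉ S ∧ pg j q = (ρ : Eis) := fun ρ =>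
      g2 ρ ⟨(hQ ρ ρ.2).1, (hQ ρ ρ.2).2.1⟩
    choose f hf using h1
    refine ⟨Finset.univ.image f, ⟨?_, ?_⟩, ?_⟩
    · rw [Finset.disjoint_left]
      intro q hq
      obtain ⟨ρ, -, rfl⟩ := Finset.mem_image.1 hq
      exact (hf ρ).1
    · intro q hq
      obtain ⟨ρ, -, rfl⟩ := Finset.mem_image.1 hq
      rw [← hadm _ (hf ρ).1, (hf ρ).2]
      exact hQ ρ ρ.2
    · ext x
      rw [Finset.mem_image]
      constructor
      · rintro ⟨q, hq, rfl⟩
        obtain ⟨ρ, -, rfl⟩ := Finset.mem_image.1 hq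
        rw [(hf ρ).2]
        exact ρ.2
      · intro hx
        exact ⟨f ⟨x, hx⟩, Finset.mem_image_of_mem _ (Finset.mem_univ _), (hf ⟨x, hx⟩).2⟩
  -- both sides as sums over subtypes
  have e1 : ∑' P : Finset Eis, (if ∀ ρ ∈ P, Adm k ρ then NE P ^ (-s) * F P else 0) =
      ∑' P : {P : Finset Eis // U P}, NE P.1 ^ (-s) * F P.1 := by
    refine Eq.trans ?_ (tsum_subtype {P : Finset Eis | U P} (fun P => NE P ^ (-s) * F P)).symm
    apply tsum_congr
    intro P
    rw [Set.indicator_apply]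
    rfl
  have e2 : ∑' P : Finset (Pl K), (if Disjoint P S ∧ ∀ q ∈ P, Ok k q then
      (NA P : ℝ) ^ (-s) * F (P.image (pg j)) else 0) =
      ∑' P : {P : Finset (Pl K) // T P}, (NA P.1 : ℝ) ^ (-s) * F (P.1.image (pg j)) := by
    refine Eq.trans ?_ (tsum_subtype {P : Finset (Pl K) | T P}
      (fun P => (NA P : ℝ) ^ (-s) * F (P.image (pg j)))).symm
    apply tsum_congr
    intro P
    rw [Set.indicator_apply]
    rfl
  rw [e1, e2]
  let E : {P : Finset (Pl K) // T P} ≃ {P : Finset Eis // U P} :=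
    Equiv.ofBijective (fun P => ⟨P.1.image (pg j), himU P.1 P.2⟩)
      ⟨fun a b hab => Subtype.ext (hinjT a.1 b.1 a.2 b.2 (Subtype.mk.inj hab)),
        fun Q => by
          obtain ⟨P, hP, he⟩ := hsurj Q.1 Q.2
          exact ⟨⟨P, hP⟩, Subtype.ext he⟩⟩
  rw [← Equiv.tsum_eq E]
  apply tsum_congr
  intro P
  show NE (P.1.image (pg j)) ^ (-s) * F (P.1.image (pg j)) = _
  rw [hNE P.1 P.2]

end T2h16.PK.TRA
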